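import Pool.Agent.VSY.SDefs
import Pool.Agent.VRB.Letters

/-! Surfaces with a finite set of symmetries: the letters at a generic point. -/

set_option autoImplicit false

open scoped LinearAlgebra.Projectivization
open MvPolynomial

namespace Pool.Agent.VSY

open Pool.Agent.VGS (Fl adj clo Coef Kills IsPl Sp le_adj le_clo subset_adj adj_le clo_mono ai_mono
  ai_iff ai_sum mem_clo mem_clo_adj adj_adj ai_clo clo_clo aeval_mem exists_algInd clo_adj_le
  ai_mono_clo ai_card)
open Pool.Agent.VCI
open Pool.Agent.VRB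
open Pool.Agent.VRC (cone TrLe lin_basis)

/-- larger minors of a matrix of rank at most `c` are zero -/
private theorem det_zero {ι κ : Type*} [Fintype κ] {c : ℕ} {Q : Matrix ι κ ℂ} (h : Q.rank ≤ c)
    (I : Fin (c + 1) → ι) (N : Fin (c + 1) → κ) :
    (Matrix.of fun i j => Q (I i) (N j)).det = 0 := by
  by_contra h0
  have h1 := Matrix.linearIndependent_rows_of_det_ne_zero h0
  have h2 := h1.rank_matrix
  rw [Fintype.card_fin] at h2
  have h3 : (Q.submatrix I N).rank ≤ Q.rank := Matrix.rank_submatrix_le _ _ _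
  have h4 : (Q.submatrix I N) = Matrix.of fun i j => Q (I i) (N j) := rfl
  rw [h4, h2] at h3
  omega

/-- a nonzero minor of size `c` -/
private theorem le_rank {ι κ : Type*} [Fintype κ] {c : ℕ} {Q : Matrix ι κ ℂ}
    {I : Fin c → ι} {N : Fin c → κ} (h : (Matrix.of fun i j => Q (I i) (N j)).det ≠ 0) :
    c ≤ Q.rank := by
  have h1 := Matrix.linearIndependent_rows_of_det_ne_zero h
  have h2 := h1.rank_matrix
  rw [Fintype.card_fin] at h2
  have h3 : (Q.submatrix I N).rank ≤ Q.rank := Matrix.rank_submatrix_le _ _ _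
  have h4 : (Q.submatrix I N) = Matrix.of fun i j => Q (I i) (N j) := rfl
  rwa [h4, h2] at h3

variable {n : ℕ} [NeZero n] {s m L c v : ℕ} {k K : Fl} {h : Fin s → MvPolynomial (Fin n) ℂ}
  {g : Fin m → Fin L → MvPolynomial (Fin n) ℂ} {A : Fin v → Matrix (Fin n) (Fin n) ℂ}
  {a : Fin L → ℂ} {d : Fin (s + m) → ℕ}

/-- the letters at a generic point: `c` of the `a l` are eliminated; the `S l` are combinations of
the sections, which are zero at `z` -/
theorem lt_of (H : LinG c k h g A a K d) {z : Fin n → ℂ} (hz : z ≠ 0) {i₀ : Fin n}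
    (hzi : z i₀ = 1) (hp : Projectivization.mk ℂ z hz ∈ Gen K (eqs h g a)) :
    ∃ (Λ : Type) (_ : Fintype Λ) (A : Λ → ℂ) (S : Fin m → Λ → MvPolynomial (Fin n) ℂ),
      Lt c (adj k (Set.range z)) A S d (eqs h g a) ∧
      adj (adj k (Set.range z)) (Set.range A) = adj K (Set.range z) ∧
      (∀ l, ∃ b : Fin L → ℂ, ∀ i, S i l = ∑ l', C (b l') * g i l') ∧
      ∀ y ∈ cone (eqs h g a), Sp2 g z y ↔ Full c S y := by
  classical
  have hck := H.ck
  have hzX : z ∈ cone (eqs h g a) := ⟨hz, (mem_surf_mk H.hom hz).1 hp.1⟩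
  obtain ⟨-, hz1⟩ := cone_eqs hzX
  have hzκ : ∀ j, z j ∈ adj k (Set.range z) := fun j => subset_adj _ _ ⟨j, rfl⟩
  have hgκ : ∀ i l, mat g z i l ∈ adj k (Set.range z) := fun i l =>
    aeval_mem ((H.coefg i l).mono (le_adj _ _)) hzκ
  obtain ⟨Λ, hΛ, e, T, hcard, hTκ, hXT, hker⟩ := exists_ker (H.rk z hzX) hgκ
  have ha0 : (mat g z).mulVec a = 0 := by
    funext i
    exact hz1 i
  have hTa : ∀ l', a l' = ∑ l, T l' l * a (e l) := fun l' => (congrFun (hker a ha0) l').symm
  have hS : ∀ y, (Matrix.of fun i l => aeval y (∑ l', C (T l' l) * g i l') :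
      Matrix (Fin m) Λ ℂ) = mat g y * T := by
    intro y
    ext i l
    rw [Matrix.of_apply, map_sum, Matrix.mul_apply]
    refine Finset.sum_congr rfl fun l' _ => ?_
    rw [map_mul, aeval_C, mul_comm]
    rfl
  refine ⟨Λ, hΛ, fun l => a (e l), fun i l => ∑ l', C (T l' l) * g i l', ?_, ?_,
    fun l => ⟨fun l' => T l' l, fun i => rfl⟩, fun y hy => ?_⟩
  · -- independence
    have hai : AlgebraicIndependent (adj k (Set.range z)) (fun l : Λ => a (e l)) := by
      obtain ⟨j, l, hjl⟩ := gen_coord H.hom hz hzi hp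
      obtain ⟨e', f, hf, hfz⟩ := lin_basis k z
      have he := VRC.TrLe.le_of_ai (H.trd z hzX i₀ hzi) hf
      have hx : AlgebraicIndependent k (Sum.elim a ![z j, z l]) := by
        rw [ai_sum, ← H.hK]
        exact ⟨H.ai, hjl⟩
      let y : Fin e' ⊕ Λ → ℂ := Sum.elim (fun b => z (f b)) (fun l => a (e l))
      have hzY : ∀ j, z j ∈ clo (adj k (Set.range y)) := by
        intro j
        refine clo_mono (adj_le (le_adj _ _) ?_) (hfz j)
        rintro _ ⟨b, rfl⟩
        exact subset_adj _ _ ⟨Sum.inl b, rfl⟩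
      have hzY' : adj k (Set.range z) ≤ clo (adj k (Set.range y)) := by
        refine adj_le ((le_adj _ _).trans (le_clo _)) ?_
        rintro _ ⟨j, rfl⟩
        exact hzY j
      have haY : ∀ l', a l' ∈ clo (adj k (Set.range y)) := by
        intro l'
        rw [hTa l']
        exact sum_mem fun l _ => mul_mem (hzY' (hTκ _ _)) (le_clo _ (subset_adj _ _ ⟨Sum.inr l, rfl⟩))
      have hy : AlgebraicIndependent k y := by
        refine ai_card hx ?_ ?_
        · rw [Nat.card_sum, Nat.card_sum, ← hcard]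
          simp only [Nat.card_eq_fintype_card, Fintype.card_fin] at hcard ⊢
          omega
        · rintro (l' | b)
          · exact haY l'
          · fin_cases b
            · exact hzY j
            · exact hzY l
      obtain ⟨-, h1⟩ := ai_sum.1 hy
      refine ai_mono_clo ?_ h1
      refine adj_le ((le_adj _ _).trans (le_clo _)) ?_
      rintro _ ⟨j, rfl⟩
      exact hfz j
    refine
      { cκ := inferInstance
        ai := hai
        coefS := fun i l t => ?_
        homS := fun i l => ?_
        hom := H.hom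
        coefh := fun j => ?_
        eq := fun i => ?_
        rk := fun w hw I N => ?_ }
    · rw [coeff_sum]
      refine sum_mem fun l' _ => ?_
      rw [coeff_C_mul]
      exact mul_mem (hTκ _ _) (le_adj _ _ (H.coefg _ _ t))
    · refine IsHomogeneous.sum _ _ _ fun l' _ => ?_
      have h1 := (isHomogeneous_C (Fin n) (T l' l)).mul (H.homg i l')
      rwa [zero_add] at h1
    · rw [eqs_cast]
      exact (H.coefh j).mono (le_adj _ _)
    · rw [eqs_nat]
      simp only [Finset.mul_sum]
      rw [Finset.sum_comm]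
      refine Finset.sum_congr rfl fun l' _ => ?_
      rw [hTa l', map_sum, Finset.sum_mul]
      refine Finset.sum_congr rfl fun l _ => ?_
      rw [map_mul]
      ring
    · refine det_zero (Q := (Matrix.of fun i l => aeval w (∑ l', C (T l' l) * g i l') :
        Matrix (Fin m) Λ ℂ)) ?_ I N
      rw [hS w, ← H.rk w hw]
      exact Matrix.rank_mul_le_left _ _
  · apply le_antisymm
    · refine adj_le (adj_le ?_ (subset_adj _ _)) ?_
      · rw [H.hK]
        exact (le_adj _ _).trans (le_adj _ _)
      · rintro _ ⟨l, rfl⟩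
        refine le_adj _ _ ?_
        rw [H.hK]
        exact subset_adj _ _ ⟨e l, rfl⟩
    · refine adj_le ?_ ((subset_adj _ _).trans (le_adj _ _))
      conv_lhs => rw [H.hK]
      refine adj_le ((le_adj _ _).trans (le_adj _ _)) ?_
      rintro _ ⟨l', rfl⟩
      rw [hTa l']
      exact sum_mem fun l _ => mul_mem (le_adj _ _ (hTκ _ _)) (subset_adj _ _ ⟨l, rfl⟩)
  · have hle : LinearMap.range (mat g y * T).mulVecLin ≤ LinearMap.range (mat g y).mulVecLin := by
      rintro _ ⟨v, rfl⟩
      refine ⟨T.mulVec v, ?_⟩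
      rw [Matrix.mulVecLin_apply, Matrix.mulVecLin_apply, Matrix.mulVec_mulVec]
    constructor
    · intro hsp
      have hr : (mat g y * T).rank = c := by
        refine le_antisymm ((Matrix.rank_mul_le_left _ _).trans (H.rk y hy).le) ?_
        rw [← H.rk y hy]
        refine Submodule.finrank_mono ?_
        rintro _ ⟨b, rfl⟩
        obtain ⟨b', h1, h2⟩ := hsp b
        refine ⟨fun l => b' (e l), ?_⟩
        rw [Matrix.mulVecLin_apply, Matrix.mulVecLin_apply, ← Matrix.mulVec_mulVec, hker b' h1, h2]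
      rw [← hS y] at hr
      obtain ⟨I, N, hIN⟩ := exists_det_ne hr
      exact ⟨I, N, hIN⟩
    · rintro ⟨I, N, hIN⟩ b
      have h1 := le_rank (Q := (Matrix.of fun i l => aeval y (∑ l', C (T l' l) * g i l') :
        Matrix (Fin m) Λ ℂ)) hIN
      rw [hS y, ← H.rk y hy] at h1
      have h2 := Submodule.eq_of_le_of_finrank_le hle h1
      have h3 : (mat g y).mulVec b ∈ LinearMap.range (mat g y * T).mulVecLin := by
        rw [h2]
        exact ⟨b, rfl⟩
      obtain ⟨v, hv⟩ := h3
      refine ⟨T.mulVec v, ?_, ?_⟩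
      · rw [Matrix.mulVec_mulVec, hXT, Matrix.zero_mulVec]
      · rw [Matrix.mulVec_mulVec]
        exact hv

end Pool.Agent.VSY
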