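import Pool.Agent.VSY.SDefs
import Pool.Agent.VCI.AutP

/-!
# Surfaces with a finite set of symmetries: the points `A p`
-/

set_option autoImplicit false

open scoped LinearAlgebra.Projectivization
open MvPolynomial

namespace Pool.Agent.VSY

open Pool.Agent.VGS (Fl adj clo Coef)
open Pool.Agent.VCI
open Pool.Agent.VRC (cone)

section Tp

variable {n m v : ℕ} [NeZero n] {A : Matrix (Fin n) (Fin n) ℂ} {K L : Fl} {p q : PN n}
  {F : Fin m → MvPolynomial (Fin n) ℂ} {d : Fin m → ℕ}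

omit [NeZero n] in
theorem mv_eq (A : Matrix (Fin n) (Fin n) ℂ) (z : Fin n → ℂ) : mv A z = A.mulVec z := rfl

omit [NeZero n] in
theorem mv_ne (hA : A.det ≠ 0) {z : Fin n → ℂ} (hz : z ≠ 0) : mv A z ≠ 0 :=
  mulVec_ne_zero' hA hz

omit [NeZero n] in
theorem mv_smul {R : Type} [CommRing R] [Algebra ℂ R] (c : R) (z : Fin n → R) (i : Fin n) :
    mv A (fun j => c * z j) i = c * mv A z i := by
  unfold mv
  rw [Finset.mul_sum]
  exact Finset.sum_congr rfl fun j _ => by ring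

omit [NeZero n] in
theorem mv_fix {σ : ℂ ≃+* ℂ} (hσ : σ ∈ VGS.Fix K) (hA : ∀ i j, A i j ∈ K) (z : Fin n → ℂ)
    (i : Fin n) : σ (mv A z i) = mv A (fun j => σ (z j)) i := by
  unfold mv
  rw [map_sum]
  refine Finset.sum_congr rfl fun j _ => ?_
  rw [map_mul]
  congr 1
  exact hσ _ (hA i j)

theorem tp_mk (hA : A.det ≠ 0) {z : Fin n → ℂ} (hz : z ≠ 0) :
    tp A (Projectivization.mk ℂ z hz) = mkP (mv A z) := by
  obtain ⟨a, ha⟩ := Projectivization.exists_smul_eq_mk_rep ℂ z hz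
  unfold tp
  rw [mkP_eq (mv_ne hA (Projectivization.rep_nonzero _)), mkP_eq (mv_ne hA hz)]
  refine mk_eq_mk_of_mul _ _ (a := (a : ℂ)) fun i => ?_
  rw [← ha]
  exact mv_smul (A := A) (a : ℂ) z i

theorem act_tp (hA : A.det ≠ 0) {σ : ℂ ≃+* ℂ} (hσ : σ ∈ VGS.Fix K) (hAK : ∀ i j, A i j ∈ K)
    (p : PN n) : act σ (tp A p) = tp A (act σ p) := by
  have h1 : tp A (act σ p) = mkP (mv A fun i => σ (p.rep i)) :=
    tp_mk hA (map_ne_zero' σ p.rep_nonzero)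
  rw [h1]
  unfold tp
  rw [act_mkP]
  congr 1
  funext i
  exact mv_fix hσ hAK p.rep i

theorem over_tp (hA : A.det ≠ 0) (hAK : ∀ i j, A i j ∈ L) (hp : Over L p) : Over L (tp A p) := by
  obtain ⟨z, hz, hL, rfl⟩ := hp
  rw [tp_mk hA hz]
  exact ⟨mv A z, mv_ne hA hz, fun i => mulVec_mem hAK hL i, mkP_eq _⟩

/-- `w` is on the line of `A p` -/
theorem eq_tp (hA : A.det ≠ 0) {w : Fin n → ℂ} (hw : w ≠ 0)
    (h : ∀ i j, w i * mv A p.rep j = w j * mv A p.rep i) : mkP w = tp A p := by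
  have hu : mv A p.rep ≠ 0 := mv_ne hA p.rep_nonzero
  obtain ⟨i, hi⟩ := Function.ne_iff.1 hu
  have hi' : mv A p.rep i ≠ 0 := hi
  unfold tp
  rw [mkP_eq hw, mkP_eq hu]
  refine mk_eq_mk_of_mul hw hu (a := w i / mv A p.rep i) fun j => ?_
  rw [div_mul_eq_mul_div, h i j, mul_div_cancel_right₀ _ hi']

theorem tp_mem {A : Fin v → Matrix (Fin n) (Fin n) ℂ} (hF : ∀ i, (F i).IsHomogeneous (d i))
    (hA : Inv F A) (hp : p ∈ ciS F) (t : Fin v) : tp (A t) p ∈ ciS F := by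
  have hu : mv (A t) p.rep ≠ 0 := mv_ne (hA t).1 p.rep_nonzero
  unfold tp
  rw [mkP_eq hu, mem_surf_mk hF hu]
  exact ((hA t).2 p.rep ⟨p.rep_nonzero, hp⟩).2

theorem tp_rep (hA : A.det ≠ 0) (p : PN n) (i j : Fin n) :
    (tp A p).rep i * mv A p.rep j = (tp A p).rep j * mv A p.rep i := by
  have hu : mv A p.rep ≠ 0 := mv_ne hA p.rep_nonzero
  obtain ⟨a, ha⟩ := Projectivization.exists_smul_eq_mk_rep ℂ (mv A p.rep) hu
  have h : tp A p = Projectivization.mk ℂ (mv A p.rep) hu := mkP_eq hu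
  rw [h, ← ha]
  change (a : ℂ) * mv A p.rep i * mv A p.rep j = (a : ℂ) * mv A p.rep j * mv A p.rep i
  ring

end Tp

end Pool.Agent.VSY
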