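import Pool.Agent.VSY.SDefs
import Pool.Agent.VCI.Fin3A
import Pool.Agent.VCI.AutP
import Pool.Agent.VCI.PlaceP

/-!
# Relations between the symmetries on the cycles of the surface
-/

set_option autoImplicit false

open scoped LinearAlgebra.Projectivization
open MvPolynomial

namespace Pool.Agent.VSY

open Pool.Agent.VCI
open Pool.Agent.VRC (cone)

variable {n m v : ℕ} [NeZero n] {p q : PN n}
  {F : Fin m → MvPolynomial (Fin n) ℂ} {d : Fin m → ℕ}

/-- the point `A t p` is a point of the surface with the coordinates `A t p` -/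
private theorem cyc_tp {A : Fin v → Matrix (Fin n) (Fin n) ℂ}
    (hF : ∀ i, (F i).IsHomogeneous (d i)) (hA : Inv F A) (hp : p ∈ ciS F) (t : Fin v) :
    tp (A t) p ∈ ciS F ∧ ∀ i j, (tp (A t) p).rep i * mv (A t) p.rep j =
      (tp (A t) p).rep j * mv (A t) p.rep i := by
  have h1 : mv (A t) p.rep ∈ cone F := (hA t).2 _ ⟨p.rep_nonzero, hp⟩
  have h2 : tp (A t) p = Projectivization.mk ℂ (mv (A t) p.rep) h1.1 := mkP_eq h1.1
  refine ⟨?_, fun i j => ?_⟩
  · rw [h2]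
    exact (mem_surf_mk hF h1.1).2 h1.2
  · have h3 : Projectivization.mk ℂ (tp (A t) p).rep (tp (A t) p).rep_nonzero =
        Projectivization.mk ℂ (mv (A t) p.rep) h1.1 := by
      rw [Projectivization.mk_rep, h2]
    obtain ⟨a, -, ha⟩ := pp_cross_of_eq h3
    rw [ha i, ha j]
    ring

theorem cycRel_rat {A : Fin v → Matrix (Fin n) (Fin n) ℂ} (hF : ∀ i, (F i).IsHomogeneous (d i))
    (hA : Inv F A) {b : Fin v → ℚ} (hb : CycRel F A b) (hp : p ∈ ciS F) (hq : q ∈ ciS F) :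
    ∑ t, b t • ((Finsupp.single (tp (A t) p) 1 : Cy n) - Finsupp.single (tp (A t) q) 1) ∈
      ratQ F := by
  have h1 := hb ⟨p, hp⟩ ⟨q, hq⟩ (fun t => ⟨tp (A t) p, (cyc_tp hF hA hp t).1⟩)
    (fun t => ⟨tp (A t) q, (cyc_tp hF hA hq t).1⟩) (fun t i j => (cyc_tp hF hA hp t).2 i j)
    (fun t i j => (cyc_tp hF hA hq t).2 i j)
  obtain ⟨z, hz⟩ : ∃ z : ciS F →₀ ℚ, z = ∑ t, b t •
      (Finsupp.single (⟨tp (A t) p, (cyc_tp hF hA hp t).1⟩ : ciS F) (1 : ℚ) -
        Finsupp.single ⟨tp (A t) q, (cyc_tp hF hA hq t).1⟩ 1) := ⟨_, rfl⟩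
  have h2 : clS z = 0 := by
    rw [hz, ← h1]
    unfold clS
    rw [map_sum]
    refine Finset.sum_congr rfl fun t _ => ?_
    rw [map_smul, map_sub]
  have h3 : z ∈ ratS (ciS F) := (Submodule.Quotient.mk_eq_zero _).1 h2
  have h4 := toW_mem.2 h3
  rw [hz, map_sum] at h4
  refine (Finset.sum_congr rfl fun t _ => ?_).subst (motive := fun x => x ∈ ratQ F) h4
  rw [map_smul, map_sub, toW_single, toW_single]

end Pool.Agent.VSY
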