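import Pool.Agent.VRB.Defs

/-!
# Surfaces with a finite set of symmetries on rationally connected varieties: definitions for the
statement
-/

set_option autoImplicit false

open scoped LinearAlgebra.Projectivization
open MvPolynomial

namespace Pool.Agent.VSY

open Pool.Agent.VGS (Fl adj)
open Pool.Agent.VCI (PN ciS CHQ clS)
open Pool.Agent.VRC (cone RForm IsHol)
open Pool.Agent.VRB (Sp2)

variable {n s m L v : ℕ}

/-- The vector `A z`. -/
noncomputable def mv {R : Type} [CommRing R] [Algebra ℂ R] (A : Matrix (Fin n) (Fin n) ℂ)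
    (z : Fin n → R) : Fin n → R :=
  fun i => ∑ j, algebraMap ℂ R (A i j) * z j

/-- The field generated by the coefficients of the `h j` and the `g i l` and by the entries of the
matrices `A t`. -/
noncomputable def base (h : Fin s → MvPolynomial (Fin n) ℂ)
    (g : Fin m → Fin L → MvPolynomial (Fin n) ℂ) (A : Fin v → Matrix (Fin n) (Fin n) ℂ) : Fl :=
  adj (VRB.base h g) (Set.range fun tij : Fin v × Fin n × Fin n => A tij.1 tij.2.1 tij.2.2)

/-- The matrices `A t` are invertible and the projectivities `A t` map `F = 0` to itself. -/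
def Inv (F : Fin m → MvPolynomial (Fin n) ℂ) (A : Fin v → Matrix (Fin n) (Fin n) ℂ) : Prop :=
  ∀ t, (A t).det ≠ 0 ∧ ∀ z ∈ cone F, mv (A t) z ∈ cone F

/-- The sections take independent values at a general point `z` of `F = 0` and each point `y` of
`F = 0` different from the points `A t z`. -/
def Separates (F : Fin (s + m) → MvPolynomial (Fin n) ℂ)
    (g : Fin m → Fin L → MvPolynomial (Fin n) ℂ) (A : Fin v → Matrix (Fin n) (Fin n) ℂ) : Prop :=
  ∃ B : MvPolynomial (Fin n) ℂ, (∃ z ∈ cone F, aeval z B ≠ 0) ∧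
    ∀ z ∈ cone F, aeval z B ≠ 0 → ∀ y ∈ cone F,
      (∃ t, ∀ i j, y i * mv (A t) z j = y j * mv (A t) z i) ∨ Sp2 g z y

/-- The combination `∑ t, b t * A t` of the symmetries is zero on the holomorphic two-forms. -/
def FormRel {Ω : Type} [Field Ω] [Algebra ℂ Ω] (F : Fin m → MvPolynomial (Fin n) ℂ)
    (ξ : Fin n → Ω) (A : Fin v → Matrix (Fin n) (Fin n) ℂ) (b : Fin v → ℚ) : Prop :=
  ∀ ω : RForm n, IsHol F ξ ω → ∀ D₁ D₂ : Derivation ℂ Ω Ω,
    ∑ t, algebraMap ℂ Ω (b t) * ω.val D₁ D₂ (mv (A t) ξ) = 0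

/-- The combination `∑ t, b t * A t` of the symmetries is zero on the differences of the classes of
two points: `x' t` is the point `A t x` and `y' t` is the point `A t y`. -/
def CycRel (F : Fin m → MvPolynomial (Fin n) ℂ) (A : Fin v → Matrix (Fin n) (Fin n) ℂ)
    (b : Fin v → ℚ) : Prop :=
  ∀ (x y : ciS F) (x' y' : Fin v → ciS F),
    (∀ t i j, (x' t).1.rep i * mv (A t) x.1.rep j = (x' t).1.rep j * mv (A t) x.1.rep i) →
    (∀ t i j, (y' t).1.rep i * mv (A t) y.1.rep j = (y' t).1.rep j * mv (A t) y.1.rep i) →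
      ∑ t, b t • (clS (Finsupp.single (x' t) 1) - clS (Finsupp.single (y' t) 1)) =
        (0 : CHQ (ciS F))

end Pool.Agent.VSY
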