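import Pool.Agent.VSY.Tp
import Pool.Agent.VRC.HolF
import Pool.Agent.VRC.Mono
import Pool.Agent.VRB.Mnr

/-!
# Surfaces with a finite set of symmetries: finitely many two-forms detect the relations between
the symmetries
-/

set_option autoImplicit false

open scoped LinearAlgebra.Projectivization
open MvPolynomial

namespace Pool.Agent.VSY

open Pool.Agent.VGS (Fl adj clo Coef Kills le_adj le_clo subset_adj ai_card)
open Pool.Agent.VCI (PN ciS Gen Over mkP mkP_eq mem_surf_mk Gen_anti gen_clo exists_nrm)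
open Pool.Agent.VRC (cone Sfc0 HForm tau RForm IsHol IsGenericPoint RForm.Cf val_rep)
open Pool.Agent.VRC.HolFAux (exists_rho rho_val exists_cov exists_cf val_eq)

/-! ### finitely many conditions -/

section Sel

variable {Ω : Type} [Field Ω] [Algebra ℂ Ω] {v : ℕ}

/-- the rational relations between `v` elements -/
private def relS (x : Fin v → Ω) : Submodule ℚ (Fin v → ℚ) where
  carrier := {b | ∑ t, algebraMap ℂ Ω (b t) * x t = 0}
  add_mem' := by
    intro b b' h h'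
    change ∑ t, algebraMap ℂ Ω ((b + b') t : ℚ) * x t = 0
    have h1 : ∑ t, algebraMap ℂ Ω ((b + b') t : ℚ) * x t =
        ∑ t, algebraMap ℂ Ω (b t) * x t + ∑ t, algebraMap ℂ Ω (b' t) * x t := by
      rw [← Finset.sum_add_distrib]
      refine Finset.sum_congr rfl fun t _ => ?_
      rw [Pi.add_apply, Rat.cast_add, map_add, add_mul]
    rw [h1, show ∑ t, algebraMap ℂ Ω (b t) * x t = 0 from h,
      show ∑ t, algebraMap ℂ Ω (b' t) * x t = 0 from h', add_zero]
  zero_mem' := by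
    change ∑ t, algebraMap ℂ Ω (((0 : Fin v → ℚ) t : ℚ) : ℂ) * x t = 0
    exact Finset.sum_eq_zero fun t _ => by simp
  smul_mem' := by
    intro c b h
    change ∑ t, algebraMap ℂ Ω ((c • b) t : ℚ) * x t = 0
    have h1 : ∑ t, algebraMap ℂ Ω ((c • b) t : ℚ) * x t =
        algebraMap ℂ Ω c * ∑ t, algebraMap ℂ Ω (b t) * x t := by
      rw [Finset.mul_sum]
      refine Finset.sum_congr rfl fun t _ => ?_
      rw [Pi.smul_apply, smul_eq_mul, Rat.cast_mul, map_mul, mul_assoc]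
    rw [h1, show ∑ t, algebraMap ℂ Ω (b t) * x t = 0 from h, mul_zero]

/-- finitely many of the conditions suffice -/
theorem exists_sel {ι : Type} (x : ι → Fin v → Ω) :
    ∃ s : Finset ι, ∀ b : Fin v → ℚ, (∀ i ∈ s, ∑ t, algebraMap ℂ Ω (b t) * x i t = 0) →
      ∀ i, ∑ t, algebraMap ℂ Ω (b t) * x i t = 0 := by
  classical
  let W : Finset ι → Submodule ℚ (Fin v → ℚ) := fun s => ⨅ i ∈ s, relS (x i)
  have hW : ∀ (s : Finset ι) (b : Fin v → ℚ), b ∈ W s ↔
      ∀ i ∈ s, ∑ t, algebraMap ℂ Ω (b t) * x i t = 0 := by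
    intro s b
    simp only [W, Submodule.mem_iInf]
    rfl
  obtain ⟨s, -, hs⟩ := WellFounded.has_min
    (InvImage.wf (fun s : Finset ι => Module.finrank ℚ (W s)) Nat.lt_wfRel.wf) Set.univ
    ⟨∅, trivial⟩
  refine ⟨s, fun b hb i => ?_⟩
  by_contra h0
  refine hs (insert i s) trivial ?_
  change Module.finrank ℚ (W (insert i s)) < Module.finrank ℚ (W s)
  apply Submodule.finrank_lt_finrank_of_lt
  refine lt_of_le_of_ne (fun b' hb' => ?_) fun heq => ?_
  · rw [hW] at hb' ⊢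
    exact fun j hj => hb' j (Finset.mem_insert_of_mem hj)
  · have h1 : b ∈ W (insert i s) := by
      rw [heq, hW]
      exact hb
    rw [hW] at h1
    exact h0 (h1 i (Finset.mem_insert_self _ _))

end Sel

/-! ### the points `A p` of a generic point `p` -/

section Gen

variable {n m v : ℕ} [NeZero n] {L : Fl} {F : Fin m → MvPolynomial (Fin n) ℂ} {d : Fin m → ℕ}

/-- `p` is defined over each field of definition of `A p` -/
theorem over_of_tp {A : Matrix (Fin n) (Fin n) ℂ} (hA : A.det ≠ 0) (hAL : ∀ i j, A i j ∈ L)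
    {p : PN n} (hp : Over L (tp A p)) : Over L p := by
  obtain ⟨z, hz, i, hzi, rfl⟩ := exists_nrm p
  obtain ⟨w, hw, hwL, h1⟩ := hp
  rw [tp_mk hA hz, mkP_eq (mv_ne hA hz), Projectivization.mk_eq_mk_iff'] at h1
  obtain ⟨c, hc⟩ := h1
  have hc0 : c ≠ 0 := by
    rintro rfl
    rw [zero_smul] at hc
    exact mv_ne hA hz hc.symm
  have h2 : ∀ j, c⁻¹ * z j ∈ L := by
    refine VRB.MnrAux.solve_mem (M := A) hA hAL fun i => ?_
    have h3 : ∑ j, A i j * (c⁻¹ * z j) = w i := by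
      have h4 : ∑ j, A i j * (c⁻¹ * z j) = c⁻¹ * mv A z i := by
        unfold mv
        rw [Finset.mul_sum]
        exact Finset.sum_congr rfl fun j _ => by
          rw [Algebra.algebraMap_self, RingHom.id_apply]
          ring
      rw [h4, ← hc, Pi.smul_apply, smul_eq_mul, inv_mul_cancel_left₀ hc0]
    rw [h3]
    exact hwL i
  have h5 : (fun j => c⁻¹ * z j) ≠ 0 := by
    intro h
    apply hz
    funext j
    have h6 : c⁻¹ * z j = 0 := congrFun h j
    exact (mul_eq_zero.1 h6).resolve_left (inv_ne_zero hc0)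
  refine ⟨_, h5, h2, ?_⟩
  rw [Projectivization.mk_eq_mk_iff']
  refine ⟨c, ?_⟩
  funext j
  rw [Pi.smul_apply, smul_eq_mul, mul_inv_cancel_left₀ hc0]

omit [NeZero n] in
/-- a point which is generic over `L` is not defined over an extension of transcendence degree
one -/
theorem gen_not_over {p : PN n} (hp : p ∈ Gen L F) (t : ℂ) : ¬ Over (clo (adj L {t})) p := by
  rintro ⟨z, hz, hzL, rfl⟩
  obtain ⟨-, i, j, l, hi, hai⟩ := hp
  rw [VCI.rep_mk_div, VCI.rep_mk_div] at hai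
  have h1 : AlgebraicIndependent L ![t, t] := by
    refine ai_card hai le_rfl fun b => ?_
    have h2 : Set.range ![t, t] = {t} := by
      ext x
      constructor
      · rintro ⟨b, rfl⟩
        fin_cases b <;> rfl
      · rintro rfl
        exact ⟨0, rfl⟩
    rw [h2]
    fin_cases b
    · exact div_mem (hzL j) (hzL i)
    · exact div_mem (hzL l) (hzL i)
  have h3 := h1.injective (show (![t, t] : Fin 2 → ℂ) 0 = ![t, t] 1 from rfl)
  exact absurd h3 (by decide)

theorem tp_gen {A : Fin v → Matrix (Fin n) (Fin n) ℂ} (hF : ∀ i, (F i).IsHomogeneous (d i))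
    (hA : Inv F A) {t : Fin v} (hAL : ∀ i j, A t i j ∈ L) {p : PN n} (hp : p ∈ Gen L F) :
    tp (A t) p ∈ Gen L F := by
  by_contra h
  obtain ⟨x, hx⟩ := VCI.not_gen' hF (tp_mem hF hA hp.1 t) h
  exact gen_not_over hp x (over_of_tp (hA t).1
    (fun i j => (le_adj L _).trans (le_clo _) (hAL i j)) hx)

end Gen

/-! ### the two-forms -/

section Forms

variable {m r v : ℕ} {F : Fin m → MvPolynomial (Fin (r + 3)) ℂ} {Ω : Type} [Field Ω] [Algebra ℂ Ω]
  {ξ : Fin (r + 3) → Ω}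

/-- a holomorphic two-form is given by forms over each field which contains finitely many
coefficients -/
theorem exists_hf [IsAlgClosed Ω] (hξ : IsGenericPoint F ξ) (hne : (cone F).Nonempty)
    {ω₀ : RForm (r + 3)} (hol : IsHol F ξ ω₀) :
    ∃ S : Finset ℂ, ∀ (K : Fl) (d : Fin m → ℕ), Sfc0 F d K → (∀ x ∈ S, x ∈ clo K) →
      ω₀.Cf (clo K) ∧ ∃ ω : HForm F (clo K), ∀ p ∈ Gen (clo K) F,
        ∀ D₁ D₂ : Derivation ℤ ℂ ℂ, Kills (clo K) D₁ → Kills (clo K) D₂ →
          tau ω D₁ D₂ p = ω₀.val D₁ D₂ p.rep := by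
  classical
  choose f hf using fun z : cone F => hol z.1 z.2
  obtain ⟨T, q, hq⟩ := exists_cov hne f fun z => (hf z).1
  choose S hS using fun t : Fin (T + 1) => exists_cf (f (q t))
  obtain ⟨S₀, hS₀⟩ := exists_cf ω₀
  refine ⟨Finset.univ.biUnion S ∪ S₀, fun K d hX hSK => ?_⟩
  have hcf : ∀ t, (f (q t)).Cf (clo K) := fun t => hS t _ fun x hx =>
    hSK x (Finset.mem_union_left _ (Finset.mem_biUnion.2 ⟨t, Finset.mem_univ t, hx⟩))
  have hcf₀ : ω₀.Cf (clo K) := hS₀ _ fun x hx => hSK x (Finset.mem_union_right _ hx)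
  have hval : ∀ t (D₁ D₂ : Derivation ℂ Ω Ω), (f (q t)).val D₁ D₂ ξ = ω₀.val D₁ D₂ ξ :=
    fun t => (hf (q t)).2
  let ω : HForm F (clo K) :=
    { T := T
      loc := fun t => f (q t)
      coefA := fun t j s => (hcf t j s).1
      coefB := fun t j s => (hcf t j s).2
      cov := hq
      eq := fun p hp t D₁ D₂ h₁ h₂ => val_eq hX hξ (hcf 0) (hcf t)
        (fun E₁ E₂ => (hval t E₁ E₂).trans (hval 0 E₁ E₂).symm) hp h₁ h₂ }
  refine ⟨hcf₀, ω, fun p hp D₁ D₂ h₁ h₂ => ?_⟩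
  exact val_eq hX hξ hcf₀ (hcf 0) (fun E₁ E₂ => hval 0 E₁ E₂) hp h₁ h₂

/-- Finitely many two-forms decide whether a rational combination of the symmetries is zero on
the holomorphic two-forms. -/
theorem exists_dich [IsAlgClosed Ω] (hξ : VRC.IsGenericPoint F ξ)
    {A : Fin v → Matrix (Fin (r + 3)) (Fin (r + 3)) ℂ}
    (hG : ∀ b, FormRel F ξ A b → CycRel F A b) :
    ∃ S : Finset ℂ, ∀ (K : Fl) (d : Fin m → ℕ), Sfc0 F d K → Inv F A → (∀ t i j, A t i j ∈ K) →
      (∀ x ∈ S, x ∈ clo K) → Dich F A K := by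
  classical
  by_cases hne : (cone F).Nonempty
  swap
  · refine ⟨∅, fun K d hX _ _ _ => ?_⟩
    exfalso
    obtain ⟨p, hp⟩ := hX.gen K hX.cK
    obtain ⟨w, hw, i, j, l, hi, -, hwF, hai⟩ := VCI.gen_nrm hX.hom hp
    exact hne ⟨w, hw, hwF⟩
  -- finitely many forms and derivations
  let ι : Type := {x : RForm (r + 3) × Derivation ℂ Ω Ω × Derivation ℂ Ω Ω // IsHol F ξ x.1}
  obtain ⟨s, hs⟩ := exists_sel (ι := ι) (v := v)
    fun i t => i.1.1.val i.1.2.1 i.1.2.2 (mv (A t) ξ)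
  choose S hS using fun i : ι => exists_hf hξ hne i.2
  refine ⟨s.biUnion S, fun K d hX hA hAK hSK b => ?_⟩
  by_cases hb : ∀ i ∈ s, ∑ t, algebraMap ℂ Ω (b t) *
      i.1.1.val i.1.2.1 i.1.2.2 (mv (A t) ξ) = 0
  · left
    exact hG b fun ω hω D₁ D₂ => hs b hb ⟨(ω, D₁, D₂), hω⟩
  · right
    push Not at hb
    obtain ⟨i, hi, hne'⟩ := hb
    obtain ⟨hcf, ω, hω⟩ := hS i K d hX fun x hx => hSK x (Finset.mem_biUnion.2 ⟨i, hi, hx⟩)
    refine ⟨ω, fun L hL hKL p hp => ?_⟩
    obtain ⟨z, hz, i₀, hzi, rfl, hzF, ρ, hρ, hρξ⟩ := exists_rho (hX.mono hL hKL) hξ hp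
    have hKL' : clo K ≤ clo L := VGS.clo_mono hKL
    have k₁ := VCI.EffTauAux.pull_kills hρ i.1.2.1
    have k₂ := VCI.EffTauAux.pull_kills hρ i.1.2.2
    refine ⟨VCI.EffTauAux.pull ρ i.1.2.1, VCI.EffTauAux.pull ρ i.1.2.2,
      fun x hx => k₁ x (le_clo L hx), fun x hx => k₂ x (le_clo L hx), fun h0 => hne' ?_⟩
    have h1 := congrArg ρ h0
    rw [map_sum, map_zero] at h1
    rw [← h1]
    refine Finset.sum_congr rfl fun t _ => ?_
    have hw : mv (A t) z ≠ 0 := mv_ne (hA t).1 hz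
    have hgen : tp (A t) (Projectivization.mk ℂ z hz) ∈ Gen (clo K) F := by
      rw [gen_clo]
      exact tp_gen hX.hom hA (hAK t) (Gen_anti hKL F hp)
    rw [map_mul, hω _ hgen _ _ (fun x hx => k₁ x (hKL' hx)) (fun x hx => k₂ x (hKL' hx)),
      tp_mk (hA t).1 hz, mkP_eq hw, val_rep _ _ _ hw,
      rho_val hρ (hcf.mono hKL')
        (fun j s => by rw [VCI.EffTauAux.pull_apply, ρ.apply_symm_apply])
        (fun j s => by rw [VCI.EffTauAux.pull_apply, ρ.apply_symm_apply])]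
    congr 1
    · exact (hρ _ (VGS.le_clo L (L.algebraMap_mem (b t)))).symm
    · congr 1
      funext j
      unfold mv
      rw [map_sum]
      refine Finset.sum_congr rfl fun l _ => ?_
      rw [map_mul, hρξ, Algebra.algebraMap_self, RingHom.id_apply,
        hρ _ (le_clo L (hKL (hAK t j l)))]

end Forms

end Pool.Agent.VSY
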