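import Pool.Agent.VSY.Inst
import Pool.Agent.VSY.Forms
import Pool.Agent.VRB.Fin

/-! The main theorem for surfaces with a finite set of symmetries. -/

set_option autoImplicit false

open scoped LinearAlgebra.Projectivization
open MvPolynomial

namespace Pool.Agent.VSY

open Pool.Agent.Chow0 (IsChowForm IsLink)
open Pool.Agent.VGS
open Pool.Agent.VCI hiding veryGen IsAct EffCorr ActsByScalar IsGenericPoint effT effT_tau TZ tau
  tauC CoefE mem_TZ inst_move inst_mu tz_mono tz_act pres exists_genericPoint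
open Pool.Agent.VRC (cone IsIrr IsRC IsSmooth Sfc0 Sfc HForm tau tauC TZ inst_move inst_mu tz_mono
  tz_act IsGenericPoint HasForm EffCorr ActsByScalar veryGen IsAct exists_ground countable_bot cfs
  coefE_of toW_cycS_eff support_sub_smul sfc0_of exists_loc_fin exists_hform ncone_of effT_isT2
  effT_tau CoefE effT pres mem_TZ)
open Pool.Agent.VRB (TanLe eqs mat)

section Ground

variable {n s m L v : ℕ} {h : Fin s → MvPolynomial (Fin n) ℂ}
  {g : Fin m → Fin L → MvPolynomial (Fin n) ℂ} {A : Fin v → Matrix (Fin n) (Fin n) ℂ}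

theorem countable_base : Countable (base h g A) := by
  have h0 : Countable (VRB.base h g) := VRB.countable_base
  have h1 : Countable (Set.range fun tij : Fin v × Fin n × Fin n => A tij.1 tij.2.1 tij.2.2) :=
    (Set.countable_range _).to_subtype
  exact countable_adj _ _

theorem base_le : VRB.base h g ≤ base h g A := le_adj _ _

end Ground

variable {r s m L c v : ℕ} {h : Fin s → MvPolynomial (Fin (r + 3)) ℂ}
  {g : Fin m → Fin L → MvPolynomial (Fin (r + 3)) ℂ}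
  {A : Fin v → Matrix (Fin (r + 3)) (Fin (r + 3)) ℂ} {a : Fin L → ℂ}
  {d : Fin (s + m) → ℕ} {k K : Fl}

/-- nilpotence for the Chow group with rational coefficients -/
theorem nilS (H : Hyp c h g A a d k K) (T : Finset ℂ) (hT : ∀ x ∈ T, x ∈ clo K) :
    ∃ N : ℕ, 0 < N ∧ ∀ x : Fin N → Module.End ℚ (Cy (r + 3) ⧸ ratQ (eqs h g a)),
      (∀ i, ∃ α : PN (r + 3) → Cy (r + 3),
        (∀ p ∈ Gen K (eqs h g a), α p ∈ TZ K (eqs h g a) (clo K)) ∧
        (∀ σ ∈ VGS.Fix (adj K T), ∀ p ∈ Gen K (eqs h g a), α (act σ p) = actC σ (α p)) ∧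
        ∀ p ∈ Gen K (eqs h g a),
          x i ((ratQ (eqs h g a)).mkQ (Finsupp.single p (1 : ℚ))) =
            (ratQ (eqs h g a)).mkQ (α p)) →
      ∀ p ∈ ciS (eqs h g a), ∀ q ∈ ciS (eqs h g a), (List.ofFn x).prod
        ((ratQ (eqs h g a)).mkQ (Finsupp.single p (1 : ℚ)) -
          (ratQ (eqs h g a)).mkQ (Finsupp.single q (1 : ℚ))) = 0 := by
  obtain ⟨N, hN0, hN⟩ := Sys.nil_fin (sysG H) T hT
  exact ⟨N, hN0, fun x hx p hp q hq => hN x hx _ (Submodule.subset_span ⟨p, hp, q, hq, rfl⟩)⟩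

/-- **The main theorem.** -/
theorem mainG (e : Fin s → ℕ) (d : Fin m → ℕ) (he : ∀ j, (h j).IsHomogeneous (e j))
    (hd : ∀ i l, (g i l).IsHomogeneous (d i)) (hY : IsIrr h) (hRC : IsRC h)
    (ha : AlgebraicIndependent (base h g A) a)
    (hrk : ∀ z ∈ cone (eqs h g a), (mat g z).rank = c)
    (htan : ∀ z ∈ cone (eqs h g a), TanLe h (c + 3) z) (hA : Inv (eqs h g a) A)
    (hsep : Separates (eqs h g a) g A)
    (hXs : IsSmooth (eqs h g a)) (hXi : IsIrr (eqs h g a))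
    (Ω : Type) [Field Ω] [Algebra ℂ Ω] [IsAlgClosed Ω] (ξ : Fin (r + 3) → Ω)
    (hξ : IsGenericPoint (eqs h g a) ξ) (hform : HasForm (eqs h g a) ξ)
    (hG : ∀ b, FormRel (eqs h g a) ξ A b → CycRel (eqs h g a) A b)
    (n : ℕ) (w w' : Fin n → ℕ) (Γ : ∀ i, EffCorr (eqs h g a) ξ (w i))
    (Γ' : ∀ i, EffCorr (eqs h g a) ξ (w' i))
    (hm : ∀ i, ActsByScalar (eqs h g a) (Γ i) (Γ' i) 0) :
    ∃ (D : ℕ → MvPolynomial (Fin (r + 3)) ℂ) (N : ℕ)
      (Ψ : Fin n → Module.End ℚ (CHQ (ciS (eqs h g a)))),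
      (∀ j, (∃ e, (D j).IsHomogeneous e) ∧ ∃ p ∈ ciS (eqs h g a), aeval p.rep (D j) ≠ 0) ∧
      (∀ i, IsAct (Γ i) (Γ' i) (veryGen (eqs h g a) D) (Ψ i)) ∧
      (∀ i, ∀ Ψ', IsAct (Γ i) (Γ' i) (veryGen (eqs h g a) D) Ψ' → Ψ' = Ψ i) ∧
      WordsZero Ψ 0 N := by
  classical
  obtain ⟨S₁, hS₁⟩ := exists_loc_fin hXs
  obtain ⟨S₂, hS₂⟩ := exists_hform hξ hform
  obtain ⟨S₃, hS₃⟩ := exists_dich hξ hG
  -- the ground field
  obtain ⟨S, hS⟩ : ∃ S : Finset ℂ, S = Finset.univ.biUnion fun i => cfs (Γ i) ∪ cfs (Γ' i) :=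
    ⟨_, rfl⟩
  have hbc : Countable (base h g A) := countable_base
  obtain ⟨k, hk, hkc, hbk, hind, hSk'⟩ := exists_ground (base h g A) ha (S₁ ∪ (S₂ ∪ S₃) ∪ S)
  obtain ⟨K, hK⟩ : ∃ K : Fl, K = adj k (Set.range a) := ⟨_, rfl⟩
  rw [← hK] at hSk'
  have hrc : Countable (Set.range a) := (Set.countable_range _).to_subtype
  have hKc : Countable K := by
    rw [hK]
    infer_instance
  have hSk₁ : ∀ x ∈ S₁, x ∈ clo K := fun x hx =>
    hSk' x (Finset.mem_union_left _ (Finset.mem_union_left _ hx))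
  have hSk₂ : ∀ x ∈ S₂, x ∈ clo K := fun x hx =>
    hSk' x (Finset.mem_union_left _ (Finset.mem_union_right _ (Finset.mem_union_left _ hx)))
  have hSk₃ : ∀ x ∈ S₃, x ∈ clo K := fun x hx =>
    hSk' x (Finset.mem_union_left _ (Finset.mem_union_right _ (Finset.mem_union_right _ hx)))
  have hSk : ∀ x ∈ S, x ∈ clo K := fun x hx => hSk' x (Finset.mem_union_right _ hx)
  have hFK : ∀ i, Coef K (eqs h g a i) := fun i => by
    rw [hK]
    exact VRB.coef_eqs (base_le.trans hbk) i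
  have hkK : k ≤ K := by
    rw [hK]
    exact le_adj _ _
  have hF : ∀ i, (eqs h g a i).IsHomogeneous (Fin.append e d i) := VRB.hom_eqs he hd
  have hX0 : Sfc0 (eqs h g a) (Fin.append e d) K := sfc0_of hF hXi hKc hFK (hS₁ K hSk₁)
  obtain ⟨ω, hω⟩ := hS₂ K _ hX0 hSk₂
  have hX : Sfc (eqs h g a) (Fin.append e d) K := ⟨hX0, ncone_of hX0 ω hω⟩
  have hAK : ∀ t i j, A t i j ∈ K := fun t i j =>
    hkK (hbk (subset_adj _ _ ⟨(t, i, j), rfl⟩))
  have H : Hyp c h g A a (Fin.append e d) k K := by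
    refine ⟨hY, hRC, hXi, hA, hsep, hrk, htan, fun i l => ?_, hk, hkc, hbk, hind, hK, hX,
      hS₃ K _ hX0 hA hAK hSk₃⟩
    rw [Fin.append_right]
    exact hd i l
  have hKK' : K ≤ adj K S := le_adj _ _
  have hK'c : adj K S ≤ clo K := adj_le (le_clo _) fun x hx => hSk x hx
  have hcf : ∀ i, ∀ x ∈ cfs (Γ i), x ∈ S := fun i x hx => by
    rw [hS]
    exact Finset.mem_biUnion.2 ⟨i, Finset.mem_univ i, Finset.mem_union_left _ hx⟩
  have hcf' : ∀ i, ∀ x ∈ cfs (Γ' i), x ∈ S := fun i x hx => by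
    rw [hS]
    exact Finset.mem_biUnion.2 ⟨i, Finset.mem_univ i, Finset.mem_union_right _ hx⟩
  have hcK : ∀ i, CoefE (adj K S) (Γ i) := fun i =>
    coefE_of _ fun x hx => subset_adj _ _ (hcf i x hx)
  have hcK' : ∀ i, CoefE (adj K S) (Γ' i) := fun i =>
    coefE_of _ fun x hx => subset_adj _ _ (hcf' i x hx)
  have hconj := hX.conj K hKc le_rfl
  have hT := fun i => effT_isT2 hX0 hξ hKK' hK'c (Γ i) (hcK i)
  have hT' := fun i => effT_isT2 hX0 hξ hKK' hK'c (Γ' i) (hcK' i)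
  have htau := fun i => effT_tau hX0 hξ (Γ i) (Γ' i)
    (fun m' => (hcK i m').mono hK'c) (fun m' => (hcK' i m').mono hK'c) (hm i)
  -- the open set
  obtain ⟨p₀, hp₀⟩ := hX.gen K hKc
  obtain ⟨D, hD, hDG⟩ := exists_enum K ⟨p₀, hp₀⟩ (fun p hp x hx => by
    obtain ⟨σ, hσ, h⟩ := hconj p hp x hx
    exact ⟨σ, Fix_mono (le_clo _) hσ, h⟩)
  -- the endomorphisms
  have hmv : ∀ x ∈ ciS (eqs h g a), ∃ z : Cy (r + 3),
      (∀ p ∈ z.support, p ∈ Gen K (eqs h g a)) ∧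
      Finsupp.single x 1 - z ∈ ratQ (eqs h g a) := fun x hx => inst_move hX K le_rfl hx
  have hG : Gen K (eqs h g a) ⊆ ciS (eqs h g a) := fun p hp => hp.1
  have hsup : ∀ i, ∀ p ∈ Gen K (eqs h g a), ∀ x ∈ (effT (Γ i) p - effT (Γ' i) p).support,
      x ∈ ciS (eqs h g a) := fun i p hp x hx => by
    rcases Finset.mem_union.1 (Finsupp.support_sub hx) with h | h
    · exact (hT i).2.1 p hp x h
    · exact (hT' i).2.1 p hp x h
  choose E Ψ hE hΨ using fun i => exists_psi hG hmv (fun p => effT (Γ i) p - effT (Γ' i) p)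
    (hsup i) (fun z hz hzG => pres hX hKK' hK'c (hsup i)
      (fun σ hσ p hp => by
        rw [map_sub, (hT i).2.2 σ hσ p hp, (hT' i).2.2 σ hσ p hp]) hz hzG)
  have hact : ∀ i, ∀ p : ciS (eqs h g a), p.1 ∈ Gen K (eqs h g a) →
      ∀ s s' : Multiset (ciS (eqs h g a)),
      IsChowForm (ciS (eqs h g a)) ((Γ i).at p.1.rep) s →
      IsChowForm (ciS (eqs h g a)) ((Γ' i).at p.1.rep) s' →
      Ψ i (clS (Finsupp.single p 1)) = clS (cycS s) - clS (cycS s') := by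
    intro i p hp s s' h1 h2
    apply jW_injective
    rw [hΨ, jW_clS, toW_single, hE i p.1 hp, map_sub, map_sub, jW_clS, jW_clS, toW_cycS_eff _ h1,
      toW_cycS_eff _ h2]
  obtain ⟨N, hN0, hN⟩ := nilS H S hSk
  refine ⟨D, N, Ψ, fun j => ⟨hD j, p₀, hp₀.1, (hDG ⟨p₀, hp₀.1⟩).2 hp₀ j⟩, ?_, ?_, ?_⟩
  · intro i p hp
    have hp' := (hDG p).1 hp
    obtain ⟨s, h1⟩ := (hT i).1 p.1 hp'
    obtain ⟨s', h2⟩ := (hT' i).1 p.1 hp'
    exact ⟨s, s', h1, h2, hact i p hp' s s' h1 h2⟩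
  · intro i Ψ' h
    refine end_ext hG hmv fun p hp => ?_
    obtain ⟨s, s', h1, h2, h3⟩ := h p ((hDG p).2 hp)
    rw [h3, hact i p hp s s' h1 h2]
  · intro word z hz
    apply jW_injective
    rw [map_zero]
    have h1 : (List.ofFn fun j => Ψ (word j) - (0 : Fin n → ℚ) (word j) • 1) =
        (List.ofFn word).map fun i => Ψ i := by
      rw [List.map_ofFn]
      congr 1
      funext j
      rw [Pi.zero_apply, zero_smul, sub_zero]
      rfl
    rw [h1, jW_prod (e := fun i => E i) (fun i c => hΨ i c)]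
    have h2 : ((List.ofFn word).map fun i => E i) = List.ofFn fun j => E (word j) := by
      rw [List.map_ofFn]
      rfl
    rw [h2]
    refine deg_zero_mem (N := LinearMap.ker (List.ofFn fun j => E (word j)).prod) hz ?_
    intro p hp x hx
    refine hN _ (fun j => ?_) p hp x hx
    refine ⟨fun p => effT (Γ (word j)) p - effT (Γ' (word j)) p, fun p hp => ?_,
      fun σ hσ p hp => ?_, fun p hp => hE (word j) p hp⟩
    · refine mem_TZ.2 ⟨hsup (word j) p hp, fun ω' D₁ D₂ h1 h2 => ?_⟩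
      rw [htau (word j) p hp D₁ D₂ h1 h2 ω', zero_mul]
    · change effT (Γ (word j)) (act σ p) - effT (Γ' (word j)) (act σ p) = VCI.actC σ _
      rw [(hT (word j)).2.2 σ hσ p hp, (hT' (word j)).2.2 σ hσ p hp, map_sub]

end Pool.Agent.VSY
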