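import Pool.Agent.VSY.Core
import Pool.Agent.VSY.Cyc
import Pool.Agent.VRC.Mum
import Pool.Agent.VRC.TauNe
import Pool.Agent.VCI.S1b

/-! Surfaces with a finite set of symmetries, module S1: invariant correspondences which are zero on
the two-forms. -/

set_option autoImplicit false

open scoped LinearAlgebra.Projectivization
open MvPolynomial

namespace Pool.Agent.VSY

open Pool.Agent.VGS (Fl adj clo Coef Kills)
open Pool.Agent.VCI
open Pool.Agent.VRC (cone Sfc0 HForm tau tauC tau_over tauC_single)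
open Pool.Agent.VRB (eqs)

variable {r s m L c v : ℕ} {k K : Fl} {h : Fin s → MvPolynomial (Fin (r + 3)) ℂ}
  {g : Fin m → Fin L → MvPolynomial (Fin (r + 3)) ℂ}
  {A : Fin v → Matrix (Fin (r + 3)) (Fin (r + 3)) ℂ} {a : Fin L → ℂ} {d : Fin (s + m) → ℕ}

private theorem s1_aux (H : LinG c k h g A a K d) {K₀ : Fl} (hK₀ : K₀ ≤ K)
    (hX₀ : Sfc0 (eqs h g a) d K₀) (hD : Dich (eqs h g a) A K₀)
    {α : PN (r + 3) → Cy (r + 3)}
    (hα : ∀ p ∈ Gen K (eqs h g a), α p ∈ VRC.TZ K (eqs h g a) (clo K₀))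
    (hσ : ∀ σ ∈ VGS.Fix K, ∀ p ∈ Gen K (eqs h g a), α (act σ p) = actC σ (α p))
    {p q : PN (r + 3)} (hp : p ∈ Gen K (eqs h g a)) (hq : q ∈ Gen (clo (adjP K p)) (eqs h g a)) :
    α p - α q ∈ ratQ (eqs h g a) := by
  obtain ⟨β, h1⟩ := core H (fun p hp => (hα p hp).1) hσ hp hq
  have hKc : Countable K := H.cK
  have hK₀c : Countable K₀ := hX₀.cK
  have hqP : q ∈ Gen (adjP K p) (eqs h g a) := s1_gen_anti (VGS.le_clo _) hq
  have hqK : q ∈ Gen K (eqs h g a) := s1_gen_anti (le_adjP _ _) hqP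
  rcases hD β with hb | ⟨ω, hω⟩
  · have h2 := cycRel_rat H.hom H.inv hb hp.1 hqK.1
    have h3 := (ratQ (eqs h g a)).add_mem h1 h2
    rwa [sub_add_cancel] at h3
  · exfalso
    obtain ⟨sw, hsw, hswp, hswq⟩ := VRC.exists_swap H.hom hKc H.coefK H.conj hp hq
    have hpq : p ∈ Gen (adjP K q) (eqs h g a) := by
      have h2 := s1_transport H.hom H.coefK hsw hqP
      rwa [hswp, hswq] at h2
    obtain ⟨L, hL⟩ : ∃ L : Fl, L = clo (adjP K q) := ⟨_, rfl⟩
    have hLc : Countable L := by rw [hL]; infer_instance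
    have hKL : K ≤ L := by rw [hL]; exact (le_adjP _ _).trans (VGS.le_clo _)
    have hK₀L : clo K₀ ≤ L := by
      rw [hL]
      exact VGS.clo_mono (hK₀.trans (le_adjP _ _))
    have hpL : p ∈ Gen L (eqs h g a) := by
      rw [hL]
      exact s1_gen_clo hpq
    have hqL : Over L q := by rw [hL]; exact (over_adjP _ _).mono (VGS.le_clo _)
    obtain ⟨D₁, D₂, k₁, k₂, hne⟩ := hω L hLc (hK₀.trans hKL) p hpL
    have h3 := VRC.mumford H.hom (κ := clo K₀) (fun i => (hX₀.coef i).mono (VGS.le_clo _)) ω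
      (fun x hx => k₁ x (hK₀L hx)) (fun x hx => k₂ x (hK₀L hx)) h1
    have h4 : tauC ω D₁ D₂ (α p) = 0 :=
      (hα p hp).2 ω D₁ D₂ (fun x hx => k₁ x (hKL hx)) (fun x hx => k₂ x (hKL hx))
    have h5 : tauC ω D₁ D₂ (α q) = 0 :=
      (hα q hqK).2 ω D₁ D₂ (fun x hx => k₁ x (hKL hx)) (fun x hx => k₂ x (hKL hx))
    have h6 : ∀ t, tau ω D₁ D₂ (tp (A t) q) = 0 := fun t =>
      tau_over ω (fun x hx => k₁ x (hK₀L hx)) k₁
        (over_tp (H.inv t).1 (fun i j => hKL (H.le (H.coefA t i j))) hqL)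
    rw [map_sub, map_sub, h4, h5, sub_zero, zero_sub, neg_eq_zero, map_sum] at h3
    apply hne
    rw [← h3]
    refine Finset.sum_congr rfl fun t _ => ?_
    rw [map_smul, map_sub, tauC_single, tauC_single, one_smul, one_smul, h6, sub_zero,
      Rat.smul_def]

/-- an invariant correspondence which is zero on the two-forms is zero on differences of generic
points -/
theorem s1_zero (H : LinG c k h g A a K d) (hX : Sfc0 (eqs h g a) d K) {K₀ : Fl} (hK₀ : K₀ ≤ K)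
    (hX₀ : Sfc0 (eqs h g a) d K₀) (hAK₀ : ∀ t i j, A t i j ∈ K₀) (hD : Dich (eqs h g a) A K₀)
    {α : PN (r + 3) → Cy (r + 3)}
    (hα : ∀ p ∈ Gen K (eqs h g a), α p ∈ VRC.TZ K (eqs h g a) (clo K₀))
    (hσ : ∀ σ ∈ VGS.Fix K, ∀ p ∈ Gen K (eqs h g a), α (act σ p) = actC σ (α p)) :
    ∀ p ∈ Gen K (eqs h g a), ∀ q ∈ Gen K (eqs h g a), α p - α q ∈ ratQ (eqs h g a) := by
  intro p hp q hq
  have hKc : Countable K := H.cK
  obtain ⟨x, hx⟩ := hX.gen (clo (adjP (adjP K p) q)) inferInstance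
  have hxp : x ∈ Gen (clo (adjP K p)) (eqs h g a) := s1_gen_anti (VGS.clo_mono (le_adjP _ _)) hx
  have hxq : x ∈ Gen (clo (adjP K q)) (eqs h g a) := by
    refine s1_gen_anti (VGS.clo_mono ?_) hx
    exact VGS.adj_le ((le_adjP _ _).trans (le_adjP _ _)) (VGS.subset_adj _ _)
  have h1 := s1_aux H hK₀ hX₀ hD hα hσ hp hxp
  have h2 := s1_aux H hK₀ hX₀ hD hα hσ hq hxq
  have h3 := (ratQ (eqs h g a)).sub_mem h1 h2
  rwa [sub_sub_sub_cancel_right] at h3

end Pool.Agent.VSY
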