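import Pool.Agent.VSY.LinG
import Pool.Agent.VSY.S1
import Pool.Agent.VRC.Fin

/-! The system of points of a surface with a finite set of symmetries. -/

set_option autoImplicit false

open scoped LinearAlgebra.Projectivization
open MvPolynomial

namespace Pool.Agent.VSY

open Pool.Agent.VGS (Fl adj clo Coef Kills le_adj le_clo clo_mono clo_clo ai_sum ai_clo subset_adj
  adj_adj adj_le Sys)
open Pool.Agent.VCI
open Pool.Agent.VRC (cone IsIrr IsRC Sfc0 Sfc HForm tau tauC TZ inst_move inst_mu tz_mono tz_act)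
open Pool.Agent.VRB (Sp2 TanLe eqs mat)

variable {r s m L c v : ℕ} {h : Fin s → MvPolynomial (Fin (r + 3)) ℂ}
  {g : Fin m → Fin L → MvPolynomial (Fin (r + 3)) ℂ}
  {A : Fin v → Matrix (Fin (r + 3)) (Fin (r + 3)) ℂ} {a : Fin L → ℂ}
  {d : Fin (s + m) → ℕ} {k K : Fl}

/-- The hypotheses of the theorem at the level of the proof. -/
structure Hyp (c : ℕ) (h : Fin s → MvPolynomial (Fin (r + 3)) ℂ)
    (g : Fin m → Fin L → MvPolynomial (Fin (r + 3)) ℂ)
    (A : Fin v → Matrix (Fin (r + 3)) (Fin (r + 3)) ℂ) (a : Fin L → ℂ)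
    (d : Fin (s + m) → ℕ) (k K : Fl) : Prop where
  irr : IsIrr h
  rc : IsRC h
  irrX : IsIrr (eqs h g a)
  inv : Inv (eqs h g a) A
  sep : Separates (eqs h g a) g A
  rk : ∀ z ∈ cone (eqs h g a), (mat g z).rank = c
  tan : ∀ z ∈ cone (eqs h g a), TanLe h (c + 3) z
  homg : ∀ i l, (g i l).IsHomogeneous (d (Fin.natAdd s i))
  ck : Countable k
  clok : clo k = k
  base_le : base h g A ≤ k
  ai : AlgebraicIndependent k a
  hK : K = adj k (Set.range a)
  sfc : Sfc (eqs h g a) d K
  dich : Dich (eqs h g a) A K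

/-- the independence of the letters over `k(t)` -/
theorem Hyp.ind_adj (H : Hyp c h g A a d k K) {n : ℕ} {t : Fin n → ℂ}
    (ht : AlgebraicIndependent K t) :
    AlgebraicIndependent (adj k (Set.range t)) a := by
  rw [H.hK] at ht
  have h1 := ai_sum.2 ⟨H.ai, ht⟩
  have h2 : AlgebraicIndependent k (Sum.elim t a) := by
    refine (algebraicIndependent_equiv' (Equiv.sumComm (Fin n) _) (f := Sum.elim a t) ?_).2 h1
    ext (i | i) <;> rfl
  exact (ai_sum.1 h2).2

theorem Hyp.lin_adj (H : Hyp c h g A a d k K) {n : ℕ} {t : Fin n → ℂ}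
    (ht : AlgebraicIndependent K t) :
    LinG c (adj k (Set.range t)) h g A a (adj K (Set.range t)) d ∧
      Sfc0 (eqs h g a) d (adj K (Set.range t)) := by
  have := H.ck
  have := H.sfc.cK
  have hc : Countable (Set.range t) := (Set.countable_range t).to_subtype
  have hc1 : Countable (adj k (Set.range t)) := inferInstance
  have hc2 : Countable (adj K (Set.range t)) := inferInstance
  have hX : Sfc0 (eqs h g a) d (adj K (Set.range t)) := H.sfc.toSfc0.mono hc2 (le_adj _ _)
  refine ⟨linG_of H.irr H.rc H.irrX H.inv H.sep H.rk H.tan H.homg hc1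
    (H.base_le.trans (le_adj _ _)) (H.ind_adj ht) ?_ hX, hX⟩
  rw [H.hK, adj_adj, adj_adj, Set.union_comm]

theorem Hyp.coefA (H : Hyp c h g A a d k K) (t : Fin v) (i j : Fin (r + 3)) : A t i j ∈ K := by
  rw [H.hK]
  exact le_adj _ _ (H.base_le (subset_adj _ _ ⟨(t, i, j), rfl⟩))

/-- **Theorem S** for an invariant correspondence over `K(t)` with values in `TZ`. -/
theorem Hyp.s1t (H : Hyp c h g A a d k K) {n : ℕ} (t : Fin n → ℂ)
    (ht : AlgebraicIndependent K t) (α : PN (r + 3) → Cy (r + 3))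
    (hα : ∀ p ∈ Gen (adj K (Set.range t)) (eqs h g a),
      α p ∈ TZ (adj K (Set.range t)) (eqs h g a) (clo K))
    (hα' : ∀ σ ∈ VGS.Fix (adj K (Set.range t)), ∀ p ∈ Gen (adj K (Set.range t)) (eqs h g a),
      α (act σ p) = actC σ (α p)) :
    ∀ p ∈ Gen (adj K (Set.range t)) (eqs h g a), ∀ q ∈ Gen (adj K (Set.range t)) (eqs h g a),
      α p - α q ∈ ratQ (eqs h g a) := by
  obtain ⟨HL, hX⟩ := H.lin_adj ht
  exact s1_zero HL hX (le_adj K _) H.sfc.toSfc0 H.coefA H.dich hα hα'

/-- The system of the surface. -/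
noncomputable def sysG (H : Hyp c h g A a d k K) : Sys where
  P := PN (r + 3)
  act := act
  act_one := act_one
  act_mul := act_mul
  X := ciS (eqs h g a)
  K := K
  cK := H.sfc.cK
  Gen := fun L => Gen L (eqs h g a)
  rat := ratQ (eqs h g a)
  TZ := fun L => TZ L (eqs h g a) (clo K)
  act_X := fun σ hσ p hp => (act_mem_surf H.sfc.hom H.sfc.coef hσ).2 hp
  gen_X := fun L p hp => hp.1
  gen_anti := fun L L' h => inst_gen_anti h _
  act_gen := fun L hL σ hσ p hp => inst_act_gen H.sfc.hom (fun i => (H.sfc.coef i).mono hL) hσ hp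
  conj := fun p hp q hq => H.sfc.conj K H.sfc.cK le_rfl p hp q hq
  rat_act := fun σ hσ z hz => actC_ratQ H.sfc.hom H.sfc.coef hσ hz
  rat_deg := fun z hz => degQ_ratQ hz
  move := fun L _ hL x hx => inst_move H.sfc L hL hx
  tz_X := fun L z hz => hz.1
  tz_mono := fun L L' _ h => tz_mono h
  tz_act := fun L hL σ hσ z hz => tz_act H.sfc.hom H.sfc.coef hL hσ hz
  s1t := fun n t ht α hα hσ => H.s1t t ht α hα hσ
  mu := fun L _ hL => inst_mu H.sfc L hL

end Pool.Agent.VSY
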