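import Pool.Agent.VSY.SDefs
import Pool.Agent.VRB.LinSep

/-! Surfaces with a finite set of symmetries: the sections take independent values at a generic
point `p` and each point different from the points `A t p`. -/

set_option autoImplicit false

open scoped LinearAlgebra.Projectivization
open MvPolynomial

namespace Pool.Agent.VSY

open Pool.Agent.VGS (Fl adj clo Coef le_adj le_clo subset_adj Fix_mono)
open Pool.Agent.VCI
open Pool.Agent.VRC (cone IsIrr Sfc0 gen_rel cone_fix lin_aeval_smul exists_smul_ne)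
open Pool.Agent.VRB (Sp2 eqs sp2_smul sp2_of_fix)

/-- `A (t z) = t (A z)` -/
theorem sep_mv_smul {n : ℕ} (A : Matrix (Fin n) (Fin n) ℂ) (t : ℂ) (z : Fin n → ℂ) (i : Fin n) :
    mv A (fun j => t * z j) i = t * mv A z i := by
  simp only [mv, Finset.mul_sum]
  exact Finset.sum_congr rfl fun j _ => by ring

/-- automorphisms over the field of the entries commute with `A` -/
theorem sep_mv_fix {n : ℕ} {K : Fl} {A : Matrix (Fin n) (Fin n) ℂ} {σ : ℂ ≃+* ℂ}
    (hσ : σ ∈ VGS.Fix K) (hA : ∀ i j, A i j ∈ K) (z : Fin n → ℂ) (i : Fin n) :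
    mv A (fun j => σ (z j)) i = σ (mv A z i) := by
  simp only [mv, map_sum, map_mul]
  refine Finset.sum_congr rfl fun j _ => ?_
  change A i j * σ (z j) = σ (A i j) * σ (z j)
  rw [VGS.mem_Fix.1 hσ (A i j) (hA i j)]

variable {r s m L v : ℕ} {k K : Fl} {h : Fin s → MvPolynomial (Fin (r + 3)) ℂ}
  {g : Fin m → Fin L → MvPolynomial (Fin (r + 3)) ℂ}
  {A : Fin v → Matrix (Fin (r + 3)) (Fin (r + 3)) ℂ} {a : Fin L → ℂ} {d : Fin (s + m) → ℕ}

/-- **Separation**: the sections take independent values at a generic point `p` of `X` and each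
point of `X` different from the points `A t p`. -/
theorem lin_sep (hXi : IsIrr (eqs h g a)) (hsep : Separates (eqs h g a) g A) (ck : Countable k)
    (hbase : base h g A ≤ k) (hK : K = adj k (Set.range a)) (hX : Sfc0 (eqs h g a) d K)
    (homg : ∀ i l, (g i l).IsHomogeneous (d (Fin.natAdd s i))) :
    ∀ p ∈ Gen K (eqs h g a), ∀ y ∈ cone (eqs h g a),
      (∃ t, ∀ i j, y i * mv (A t) p.rep j = y j * mv (A t) p.rep i) ∨ Sp2 g p.rep y := by
  classical
  intro p hp y hy
  have hkK : k ≤ K := by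
    rw [hK]
    exact le_adj _ _
  have hg : ∀ i l, Coef K (g i l) := fun i l m =>
    hkK (hbase (le_adj _ _ (subset_adj _ _ (Or.inr ⟨((i, l), m), rfl⟩))))
  have hAK : ∀ t i j, A t i j ∈ K := fun t i j =>
    hkK (hbase (subset_adj _ _ ⟨(t, i, j), rfl⟩))
  obtain ⟨z, hz, i₀, -, -, hzi, rfl, hzF, -⟩ := gen_nrm hX.hom hp
  obtain ⟨B, ⟨z₀, hz₀, hB0⟩, hB⟩ := hsep
  -- a homogeneous component of `B` which is not zero on the surface
  obtain ⟨e, he⟩ : ∃ e, aeval z₀ (homogeneousComponent e B) ≠ 0 := by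
    by_contra hcon
    push Not at hcon
    apply hB0
    rw [← sum_homogeneousComponent B, map_sum]
    exact Finset.sum_eq_zero fun e _ => hcon e
  have hcK := hX.cK
  set L₀ : Fl := adj K (Set.range fun m => coeff m B) with hL
  have hcr : Countable (Set.range fun m : Fin (r + 3) →₀ ℕ => coeff m B) :=
    (Set.countable_range _).to_subtype
  have hcL : Countable L₀ := VGS.countable_adj K _
  have hKL : K ≤ L₀ := le_adj _ _
  obtain ⟨p', hp'⟩ := hX.gen L₀ hcL
  obtain ⟨σ, hσ, hσp⟩ := hX.conj K hcK le_rfl _ hp p' (Gen_anti hKL _ hp')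
  have hσK : σ ∈ VGS.Fix K := Fix_mono (le_clo K) hσ
  have hz' := map_ne_zero' σ hz
  rw [act_mk σ z hz hz'] at hσp
  rw [← hσp] at hp'
  have hzX : z ∈ cone (eqs h g a) := ⟨hz, hzF⟩
  have hσz := cone_fix hX.coef hσK hzX
  have hσy := cone_fix hX.coef hσK hy
  have hσi : (fun j => σ (z j)) i₀ = 1 := by
    change σ (z i₀) = 1
    rw [hzi, map_one]
  have hBz : aeval (fun j => σ (z j)) (homogeneousComponent e B) ≠ 0 := by
    intro h0
    apply he
    obtain ⟨j, l, hjl⟩ := gen_coord hX.hom hz' hσi hp'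
    refine gen_rel hXi (fun i => ⟨d i, hX.hom i⟩) L₀ (fun i => (hX.coef i).mono hKL) hσz hσi
      ![j, l] (e := 2) ?_ (fun v hv => hX.tan_dep hσz hv)
      (homogeneousComponent_isHomogeneous e B) (fun m => ?_) h0 z₀ hz₀
    · have h1 : (fun b : Fin 2 => σ (z (![j, l] b))) = ![σ (z j), σ (z l)] := by
        funext b
        fin_cases b <;> rfl
      rw [h1]
      exact hjl
    · rw [coeff_homogeneousComponent]
      split_ifs
      · exact le_clo _ (subset_adj _ _ ⟨m, rfl⟩)
      · exact zero_mem _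
  obtain ⟨t, ht, hBt⟩ := exists_smul_ne hBz
  obtain ⟨u, hu⟩ := Projectivization.exists_smul_eq_mk_rep ℂ z hz
  have hrep : (Projectivization.mk ℂ z hz : PN (r + 3)).rep = fun j => (u : ℂ) * z j := by
    funext j
    rw [← hu]
    rfl
  have hu0 : (u : ℂ) ≠ 0 := u.ne_zero
  have htz : (fun j => t * σ (z j)) ∈ cone (eqs h g a) := by
    refine ⟨fun h0 => hσz.1 ?_, fun j => ?_⟩
    · funext j
      have h1 : t * σ (z j) = 0 := congrFun h0 j
      exact (mul_eq_zero.1 h1).resolve_left ht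
    · rw [lin_aeval_smul (hX.hom j), hσz.2 j, mul_zero]
  rcases hB _ htz hBt _ hσy with ⟨t', h1⟩ | h1
  · left
    refine ⟨t', fun i j => ?_⟩
    have h2 : t * σ (y i * mv (A t') z j) = t * σ (y j * mv (A t') z i) := by
      have h3 := h1 i j
      rw [sep_mv_smul, sep_mv_smul, sep_mv_fix hσK (hAK t'), sep_mv_fix hσK (hAK t')] at h3
      rw [map_mul, map_mul]
      linear_combination h3
    have h3 := σ.injective (mul_left_cancel₀ ht h2)
    rw [hrep, sep_mv_smul, sep_mv_smul]
    linear_combination (u : ℂ) * h3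
  · right
    have h2 := sp2_of_fix hg hσK (sp2_smul homg ht h1)
    have h3 : (fun j => (u : ℂ)⁻¹ * (Projectivization.mk ℂ z hz : PN (r + 3)).rep j) = z := by
      funext j
      rw [hrep]
      change (u : ℂ)⁻¹ * ((u : ℂ) * z j) = z j
      rw [← mul_assoc, inv_mul_cancel₀ hu0, one_mul]
    rw [← h3] at h2
    exact sp2_smul homg (inv_ne_zero hu0) h2

end Pool.Agent.VSY
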