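import Pool.Agent.VSY.Tp
import Pool.Agent.VSY.Letters
import Pool.Agent.VSY.RCMove
import Pool.Agent.VRB.Link

/-!
# The links along the rational curves
-/

set_option autoImplicit false

open scoped LinearAlgebra.Projectivization
open MvPolynomial

namespace Pool.Agent.VSY

open Pool.Agent.VGS (Fl adj clo Coef IsPl Sp le_adj subset_adj adj_le le_clo clo_mono clo_clo
  fix_mem_clo Fix_mono mem_Fix_adj)
open Pool.Agent.VCI
open Pool.Agent.VRC (cone TrLe Rel Rel2 lk_coef_iff lk_coef_C lk_orb_sw lk_limit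
  rel2_conj rel_of_rel2 trLe_of_rel orb_trans)
open Pool.Agent.VRB (Sp2 eqs mat eqs_cast eqs_nat lt_over lt_conj)

variable {n : ℕ}

/-- cycles with points conjugate to `x` and finitely many other points -/
theorem lk_cycles {E M₀ : Fl} {s : Multiset (PN n)} {x : PN n} {v : ℕ} {P : Fin v → PN n}
    (hx : Over (clo E) x) (hs : ∀ q ∈ s, (∃ t, q = P t) ∨ ∃ σ ∈ VGS.Fix E, act σ x = q)
    (hst : ∀ σ ∈ VGS.Fix M₀, s.map (act σ) = s)
    (hE : ∀ σ ∈ VGS.Fix E, ∃ τ ∈ VGS.Fix M₀, act τ x = act σ x) [DecidableEq (PN n)] :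
    ∃ b : Fin v → ℕ, cycQ s = (s.count x : ℚ) • Orb E x +
      ∑ t, (b t : ℚ) • Finsupp.single (P t) 1 := by
  classical
  -- one `t` for each point
  have hr : ∃ r : PN n → Option (Fin v), ∀ q, (∀ t, r q = some t → P t = q) ∧
      ((∃ t, q = P t) → ∃ t, r q = some t) := by
    have h1 : ∀ q : PN n, ∃ o : Option (Fin v), (∀ t, o = some t → P t = q) ∧
        ((∃ t, q = P t) → ∃ t, o = some t) := by
      intro q
      by_cases h : ∃ t, q = P t
      · obtain ⟨t, ht⟩ := h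
        refine ⟨some t, fun t' h' => ?_, fun _ => ⟨t, rfl⟩⟩
        rw [Option.some.inj h'] at ht
        exact ht.symm
      · exact ⟨none, fun t h' => by simp at h', fun h' => absurd h' h⟩
    choose r hr using h1
    exact ⟨r, hr⟩
  obtain ⟨r, hr⟩ := hr
  obtain ⟨b, hb⟩ : ∃ b : Fin v → ℕ, ∀ t, b t =
      if r (P t) = some t ∧ ¬ ∃ σ ∈ VGS.Fix E, act σ x = P t then s.count (P t) else 0 :=
    ⟨_, fun _ => rfl⟩
  refine ⟨b, ?_⟩
  ext q
  rw [cycQ_apply, Finsupp.add_apply, Finsupp.smul_apply, Orb_apply hx, Finsupp.finsetSum_apply,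
    smul_eq_mul]
  by_cases h1 : ∃ σ ∈ VGS.Fix E, act σ x = q
  · rw [if_pos h1, mul_one, Finset.sum_eq_zero, add_zero]
    · obtain ⟨σ, hσ, rfl⟩ := h1
      obtain ⟨τ, hτ, h2⟩ := hE σ hσ
      rw [← h2]
      norm_cast
      conv_lhs => rw [← hst τ hτ]
      exact Multiset.count_map_eq_count' _ _ (act_injective τ) _
    · intro t _
      rw [Finsupp.smul_apply, Finsupp.single_apply]
      by_cases h2 : P t = q
      · rw [hb, if_neg (fun h => h.2 (by rw [h2]; exact h1)), Nat.cast_zero, zero_smul]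
      · rw [if_neg h2, smul_zero]
  · rw [if_neg h1, mul_zero, zero_add]
    by_cases h2 : ∃ t, q = P t
    · obtain ⟨t₀, ht₀⟩ := (hr q).2 h2
      have hP := (hr q).1 t₀ ht₀
      rw [Finset.sum_eq_single t₀]
      · rw [Finsupp.smul_apply, Finsupp.single_apply, if_pos hP, hb,
          if_pos ⟨by rw [hP]; exact ht₀, by rw [hP]; exact h1⟩, hP, smul_eq_mul, mul_one]
      · intro t _ hne
        rw [Finsupp.smul_apply, Finsupp.single_apply]
        by_cases h3 : P t = q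
        · rw [hb, if_neg, Nat.cast_zero, zero_smul]
          rintro ⟨h4, -⟩
          rw [h3, ht₀] at h4
          exact hne (Option.some.inj h4).symm
        · rw [if_neg h3, smul_zero]
      · intro h3
        exact absurd (Finset.mem_univ _) h3
    · rw [Finset.sum_eq_zero]
      · norm_cast
        refine Multiset.count_eq_zero_of_notMem fun hq => ?_
        rcases hs q hq with h3 | h3
        · exact h2 h3
        · exact h1 h3
      · intro t _
        rw [Finsupp.smul_apply, Finsupp.single_apply, if_neg (fun h => h2 ⟨t, h.symm⟩), smul_zero]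

variable [NeZero n] {s m L c v : ℕ} {k K : Fl} {h : Fin s → MvPolynomial (Fin n) ℂ}
  {g : Fin m → Fin L → MvPolynomial (Fin n) ℂ} {A : Fin v → Matrix (Fin n) (Fin n) ℂ}
  {a : Fin L → ℂ} {d : Fin (s + m) → ℕ}

omit [NeZero n] in
theorem lk_kK (H : LinG c k h g A a K d) : k ≤ K := by
  rw [H.hK]
  exact le_adj _ _

omit [NeZero n] in
theorem lk_cK (H : LinG c k h g A a K d) : Countable K := by
  have := H.ck
  rw [H.hK]
  have : Countable (Set.range a) := (Set.countable_range _).to_subtype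
  infer_instance

omit [NeZero n] in
theorem lk_coef (H : LinG c k h g A a K d) (i : Fin (s + m)) : Coef K (eqs h g a i) := by
  classical
  refine Fin.addCases (fun j => ?_) (fun j => ?_) i
  · rw [eqs_cast]
    exact (H.coefh j).mono (lk_kK H)
  · rw [eqs_nat, lk_coef_iff]
    refine sum_mem fun l _ => mul_mem (lk_coef_iff.1 (lk_coef_C ?_))
      (lk_coef_iff.1 ((H.coefg j l).mono (lk_kK H)))
    rw [H.hK]
    exact subset_adj _ _ ⟨l, rfl⟩

/-- the limits of the moved points -/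
theorem lk_class (H : LinG c k h g A a K d) {z : Fin n → ℂ} (hz : z ≠ 0) {i₀ : Fin n}
    (hzi : z i₀ = 1) (hp : Projectivization.mk ℂ z hz ∈ Gen K (eqs h g a))
    {w : Fin n → ℂ} {i₁ : Fin n} (hwi : w i₁ = 1) (hw : w ∈ cone (eqs h g a))
    (hwE : ∀ j, w j ∈ clo (adj K (Set.range z))) (htr : TrLe (adj k (Set.range z)) c w)
    {w₀ : Fin n → ℂ} {i : Fin n} (hw₀i : w₀ i = 1) (hw₀ : w₀ ∈ cone (eqs h g a))
    (hrel : Rel (adj k (Set.range z)) w w₀) :
    (∃ t, mkP w₀ = tp (A t) (Projectivization.mk ℂ z hz)) ∨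
      ∃ σ ∈ VGS.Fix (adj K (Set.range z)), act σ (mkP w) = mkP w₀ := by
  classical
  obtain ⟨α, hα⟩ := Projectivization.exists_smul_eq_mk_rep ℂ z hz
  have hrep : ∀ j, (Projectivization.mk ℂ z hz : PN n).rep j = (α : ℂ) * z j := by
    intro j
    rw [← hα]
    rfl
  have hα0 : (α : ℂ) ≠ 0 := α.ne_zero
  rcases H.sep _ hp w₀ hw₀ with ⟨t, h1⟩ | h1
  · left
    exact ⟨t, eq_tp (H.inv t).1 hw₀.1 h1⟩
  · right
    have h2 : Sp2 g z w₀ := h1.scale H.homg hα0 hrep (ν := 1) (fun j => (one_mul _).symm)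
    obtain ⟨Λ, hΛ, B, S, HL, hadj, -, hsp⟩ := lt_of H hz hzi hp
    have hS := (hsp w₀ hw₀).1 h2
    have hover := lt_over HL hw₀i hw₀ (trLe_of_rel hw₀i htr hrel) hS
    rw [← hadj]
    exact lt_conj HL hwi hw₀i hw hw₀ (fun j => by rw [hadj]; exact hwE j) hover htr hrel hS

theorem rc_link (H : LinG c k h g A a K d) {p q : PN n} (hp : p ∈ Gen K (eqs h g a))
    (hq : q ∈ Gen (clo (adjP K p)) (eqs h g a)) {sw : ℂ ≃+* ℂ} (hsw : sw ∈ VGS.Fix K)
    (h1 : act sw p = q) (h2 : act sw q = p)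
    {w : Fin n → ℂ} {i₁ : Fin n} (hwi : w i₁ = 1) (hw : w ∈ cone (eqs h g a))
    (hwE : ∀ j, w j ∈ clo (adjP K p)) (htr : TrLe (adjP k p) c w)
    (hS : Sp2 g p.rep w) :
    ∃ (e e' : ℕ) (b b' : Fin v → ℕ), 0 < e ∧ (e : ℚ) • Orb (adjP K p) (mkP w) +
      ∑ t, (b t : ℚ) • Finsupp.single (tp (A t) p) 1 -
      (e' : ℚ) • actC sw (Orb (adjP K p) (mkP w)) -
      ∑ t, (b' t : ℚ) • Finsupp.single (tp (A t) q) 1 ∈ ratQ (eqs h g a) := by
  classical
  have hcK := lk_cK H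
  have hkK := lk_kK H
  have hck := H.ck
  have hcoef := lk_coef H
  -- normalised coordinates
  obtain ⟨z, hz, i₀, hzi, rfl⟩ := exists_nrm p
  obtain ⟨z', hz'def⟩ : ∃ z' : Fin n → ℂ, z' = fun j => sw (z j) := ⟨_, rfl⟩
  have hz' : z' ≠ 0 := by
    rw [hz'def]
    exact map_ne_zero' sw hz
  have hz'i : z' i₀ = 1 := by
    rw [hz'def]
    change sw (z i₀) = 1
    rw [hzi, map_one]
  have hqz : q = Projectivization.mk ℂ z' hz' := by
    rw [← h1, act_mk sw z hz (map_ne_zero' sw hz)]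
    simp only [hz'def]
  subst hqz
  have hadjz : ∀ L : Fl, adjP L (Projectivization.mk ℂ z hz) = adj L (Set.range z) :=
    fun L => adjP_mk hz hzi
  have hadjz' : ∀ L : Fl, adjP L (Projectivization.mk ℂ z' hz') = adj L (Set.range z') :=
    fun L => adjP_mk hz' hz'i
  have hzX : z ∈ cone (eqs h g a) := ⟨hz, (mem_surf_mk H.hom hz).1 hp.1⟩
  have hqK : Projectivization.mk ℂ z' hz' ∈ Gen K (eqs h g a) :=
    Gen_anti ((le_adjP K _).trans (le_clo _)) _ hq
  have hpq : Projectivization.mk ℂ z hz ∈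
      Gen (clo (adjP K (Projectivization.mk ℂ z' hz'))) (eqs h g a) := by
    have := gen_transport H.hom hcoef hsw hq
    rwa [h1, h2] at this
  obtain ⟨α, hα⟩ := Projectivization.exists_smul_eq_mk_rep ℂ z hz
  have hα0 : (α : ℂ) ≠ 0 := α.ne_zero
  have hrep : ∀ j, (Projectivization.mk ℂ z hz : PN n).rep j = (α : ℂ) * z j := by
    intro j
    rw [← hα]
    rfl
  have hSz : Sp2 g z w := hS.scale H.homg hα0 hrep (ν := 1) (fun j => (one_mul _).symm)
  -- the field of both points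
  obtain ⟨M₀, hM₀⟩ : ∃ M₀ : Fl, M₀ = adjP (adjP K (Projectivization.mk ℂ z hz))
    (Projectivization.mk ℂ z' hz') := ⟨_, rfl⟩
  have hcM : Countable M₀ := by
    rw [hM₀]
    infer_instance
  have hEM : adjP K (Projectivization.mk ℂ z hz) ≤ M₀ := by
    rw [hM₀]
    exact le_adjP _ _
  have hKM : K ≤ M₀ := (le_adjP _ _).trans hEM
  have hkM : k ≤ M₀ := hkK.trans hKM
  have hFixM : ∀ σ : ℂ ≃+* ℂ, σ ∈ VGS.Fix M₀ ↔ σ ∈ VGS.Fix K ∧
      act σ (Projectivization.mk ℂ z hz : PN n) = Projectivization.mk ℂ z hz ∧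
      act σ (Projectivization.mk ℂ z' hz' : PN n) = Projectivization.mk ℂ z' hz' := by
    intro σ
    rw [hM₀, mem_Fix_adjP, mem_Fix_adjP, and_assoc]
  have hzM : ∀ j, z j ∈ M₀ := fun j => hEM (by
    rw [hadjz]
    exact subset_adj _ _ ⟨j, rfl⟩)
  have hz'M : ∀ j, z' j ∈ M₀ := fun j => by
    rw [hM₀, hadjz']
    exact subset_adj _ _ ⟨j, rfl⟩
  -- the curve
  obtain ⟨φ, hφC, hφ0, hφ1, hφ⟩ := H.rc z z' hz hz' i₀ i₀ hzi hz'i hp (by rwa [hadjz] at hq)
  have hφM : ∀ j l, (φ j).coeff l ∈ clo M₀ := fun j l =>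
    clo_mono (adj_le hkM (Set.union_subset (by rintro _ ⟨j, rfl⟩; exact hzM j)
      (by rintro _ ⟨j, rfl⟩; exact hz'M j))) (hφC j l)
  obtain ⟨V₀, y, u, hV₀, hu₀, hu, hyw, hyC, hyi, hyX, hyrel⟩ := rc_move H hz hzi hp hwi hw
    (by rw [← hadjz]; exact hwE) (by rw [← hadjz]; exact htr) hSz (clo M₀) (clo_clo M₀)
    (by rw [← hadjz]; exact hEM.trans (le_clo _)) φ hφM hφ0 hφ
  -- the family
  have hyOver : Over (clo (adj M₀ {u})) (mkP y) := by
    rw [mkP_eq hyX.1, over_mk hyX.1 hyi]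
    intro j
    exact VGS.clo_adj_le (clo_mono (le_adj _ _)) (by
      rw [Set.singleton_subset_iff]
      exact le_clo _ (subset_adj _ _ rfl)) (hyC j)
  have hfin := finite_orbit_pt (adj M₀ {u}) hyOver
  obtain ⟨T, hTnd, hTmem⟩ : ∃ T : Multiset (PN n), T.Nodup ∧
      ∀ q, q ∈ T ↔ ∃ σ ∈ VGS.Fix (adj M₀ {u}), act σ (mkP y) = q := by
    refine ⟨hfin.toFinset.val, hfin.toFinset.nodup, fun q => ?_⟩
    rw [Finset.mem_val, Set.Finite.mem_toFinset]
    rfl
  have hT : IsFam M₀ u T := by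
    refine ⟨fun q hq => ?_, fun σ hσ => ?_⟩
    · obtain ⟨σ, hσ, rfl⟩ := (hTmem q).1 hq
      exact (over_clo_act hσ).2 hyOver
    · refine (Multiset.Nodup.ext (hTnd.map (act_injective σ)) hTnd).2 fun q => ?_
      rw [Multiset.mem_map]
      constructor
      · rintro ⟨q', hq', rfl⟩
        obtain ⟨τ, hτ, rfl⟩ := (hTmem q').1 hq'
        exact (hTmem _).2 ⟨σ * τ, (VGS.Fix _).mul_mem hσ hτ, by rw [act_mul]⟩
      · intro hq
        obtain ⟨τ, hτ, rfl⟩ := (hTmem q).1 hq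
        refine ⟨act (σ⁻¹ * τ) (mkP y), (hTmem _).2
          ⟨_, (VGS.Fix _).mul_mem ((VGS.Fix _).inv_mem hσ) hτ, rfl⟩, ?_⟩
        rw [← act_mul, mul_inv_cancel_left]
  have hyT : mkP y ∈ T := (hTmem _).2 ⟨1, (VGS.Fix _).one_mem, act_one _⟩
  have hyF : mkP y ∈ ciS (eqs h g a) := by
    rw [mkP_eq hyX.1, mem_surf_mk H.hom]
    exact hyX.2
  have hTF : ∀ q ∈ T, q ∈ ciS (eqs h g a) := by
    intro q hq
    obtain ⟨σ, hσ, rfl⟩ := (hTmem q).1 hq
    exact (act_mem_surf H.hom hcoef (Fix_mono (hKM.trans (le_adj _ _)) hσ)).2 hyF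
  have hcoefM : ∀ i, Coef M₀ (eqs h g a i) := fun i => (hcoef i).mono hKM
  have hcoefC : ∀ i, Coef (clo M₀) (eqs h g a i) := fun i => (hcoefM i).mono (le_clo _)
  -- limits
  have hEu : adj M₀ {u} ≤ adj (clo M₀) {u} :=
    adj_le ((le_clo M₀).trans (le_adj _ _)) (subset_adj _ _)
  have hTOver : ∀ q ∈ T, Over (clo (adj (clo M₀) {u})) q := fun q hq =>
    (hT.isOver q hq).mono (clo_mono hEu)
  obtain ⟨V₁, hV₁, hu₁⟩ := VGS.exists_place (clo_clo M₀) hu (one_mem (clo M₀))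
  have hex₀ : ∀ q ∈ T, ∃ q', SpP V₀ (clo M₀) q q' := fun q hq =>
    exists_spP (clo_clo M₀) hV₀ hu hu₀ (hTOver q hq)
  have hex₁ : ∀ q ∈ T, ∃ q', SpP V₁ (clo M₀) q q' := fun q hq =>
    exists_spP (clo_clo M₀) hV₁ hu hu₁ (hTOver q hq)
  choose! f₀ hf₀ using hex₀
  choose! f₁ hf₁ using hex₁
  -- the point w and its image
  have hw0 : w ≠ 0 := hw.1
  obtain ⟨w', hw'def⟩ : ∃ w' : Fin n → ℂ, w' = fun j => sw (w j) := ⟨_, rfl⟩
  have hw'0 : w' ≠ 0 := by
    rw [hw'def]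
    exact map_ne_zero' sw hw0
  have hw'i : w' i₁ = 1 := by
    rw [hw'def]
    change sw (w i₁) = 1
    rw [hwi, map_one]
  have hw'P : mkP w' = act sw (mkP w) := by
    rw [act_mkP, hw'def]
  have hw'X : w' ∈ cone (eqs h g a) := by
    refine ⟨hw'0, fun i => ?_⟩
    rw [hw'def]
    rw [VGS.aeval_fix (hcoef i) hsw w, hw.2 i, map_zero]
  have hadj : ∀ L : Fl, L ≤ K → ∀ x ∈ adj L (Set.range z), sw x ∈ adj L (Set.range z') := by
    intro L hL
    refine adj_map (fun x hx => by rw [hsw x (hL hx)]; exact hx) ?_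
    rintro _ ⟨j, rfl⟩
    exact subset_adj _ _ ⟨j, by rw [hz'def]⟩
  have hw'E : ∀ j, w' j ∈ clo (adj K (Set.range z')) := by
    intro j
    rw [hw'def]
    refine clo_map (hadj K le_rfl) _ ?_
    rw [← hadjz]
    exact hwE j
  have hw'tr : TrLe (adj k (Set.range z')) c w' := by
    intro f hf
    apply htr f
    rw [hadjz]
    have h3 := ai_transport (L' := adj k (Set.range z)) (σ := sw.symm) (fun x hx => by
      rw [RingEquiv.symm_symm]
      exact hadj k hkK x hx) hf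
    have h4 : (fun i => sw.symm (w' (f i))) = fun b => w (f b) := by
      funext b
      rw [hw'def]
      exact sw.symm_apply_apply _
    rwa [h4] at h3
  -- limits at 0
  have hwOver : Over (clo (adjP K (Projectivization.mk ℂ z hz))) (mkP w) := by
    rw [mkP_eq hw0, over_mk hw0 hwi]
    exact hwE
  have hw'Over : Over (clo (adjP K (Projectivization.mk ℂ z' hz'))) (mkP w') := by
    rw [mkP_eq hw'0, over_mk hw'0 hw'i, hadjz']
    exact hw'E
  have hlim₀ : ∀ q ∈ T.map f₀, (∃ t, q = tp (A t) (Projectivization.mk ℂ z hz)) ∨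
      ∃ σ ∈ VGS.Fix (adjP K (Projectivization.mk ℂ z hz)), act σ (mkP w) = q := by
    intro q hq
    obtain ⟨q', hq', rfl⟩ := Multiset.mem_map.1 hq
    have h3 := hf₀ q' hq'
    have h4 := SpP.mem_ciS hV₀ H.hom hcoefC h3 (hTF q' hq')
    obtain ⟨σ, hσ, rfl⟩ := (hTmem q').1 hq'
    obtain ⟨w₁, i, hi, hw₁, h5, h6⟩ := lk_limit hkM hV₀ hu₀ (zero_mem M₀) hyX.1 hφM hyrel hσ h3
    have h7 : (fun j => σ ((φ j).eval 0)) = z := by
      funext j
      rw [hφ0]
      exact (mem_Fix_adj.1 hσ).1 _ (hzM j)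
    rw [h7] at h6
    rw [h5] at h4 ⊢
    rw [mkP_eq hw₁, mem_surf_mk H.hom] at h4
    have h8 := lk_class H hz hzi hp hwi hw (by rw [← hadjz]; exact hwE)
      (by rw [← hadjz]; exact htr) hi ⟨hw₁, h4⟩ (rel_of_rel2 hzi h6)
    rwa [← hadjz] at h8
  have hlim₁ : ∀ q ∈ T.map f₁, (∃ t, q = tp (A t) (Projectivization.mk ℂ z' hz')) ∨
      ∃ σ ∈ VGS.Fix (adjP K (Projectivization.mk ℂ z' hz')), act σ (mkP w') = q := by
    intro q hq
    obtain ⟨q', hq', rfl⟩ := Multiset.mem_map.1 hq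
    have h3 := hf₁ q' hq'
    have h4 := SpP.mem_ciS hV₁ H.hom hcoefC h3 (hTF q' hq')
    obtain ⟨σ, hσ, rfl⟩ := (hTmem q').1 hq'
    obtain ⟨w₁, i, hi, hw₁, h5, h6⟩ := lk_limit hkM hV₁ hu₁ (one_mem M₀) hyX.1 hφM hyrel hσ h3
    have h7 : (fun j => σ ((φ j).eval 1)) = z' := by
      funext j
      rw [hφ1]
      exact (mem_Fix_adj.1 hσ).1 _ (hz'M j)
    rw [h7] at h6
    rw [h5] at h4 ⊢
    rw [mkP_eq hw₁, mem_surf_mk H.hom] at h4
    have h9 := rel2_conj (Fix_mono hkK hsw) h6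
    rw [← hz'def, ← hw'def] at h9
    have h8 := lk_class H hz' hz'i hqK hw'i hw'X hw'E hw'tr hi ⟨hw₁, h4⟩ (rel_of_rel2 hz'i h9)
    rwa [← hadjz'] at h8
  -- the cycles
  have hcyc₀ := lk_cycles hwOver hlim₀
    (fun σ hσ => stable_ms hu hT (zero_mem M₀) hV₀ hu₀ hf₀ hσ) (fun σ hσ => by
      obtain ⟨τ, hτ, h3⟩ := orb_trans H.hom (E := adjP K (Projectivization.mk ℂ z hz)) inferInstance
        (fun i => (hcoef i).mono (le_adjP _ _))
        (fun L hL hEL p hp q hq => H.conj L hL ((le_adjP _ _).trans hEL) p hp q hq) hq hwOver hσ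
      rw [← hM₀] at hτ
      exact ⟨τ, hτ, h3⟩)
  have hcyc₁ := lk_cycles hw'Over hlim₁
    (fun σ hσ => stable_ms hu hT (one_mem M₀) hV₁ hu₁ hf₁ hσ) (fun σ hσ => by
      obtain ⟨τ, hτ, h3⟩ := orb_trans H.hom (E := adjP K (Projectivization.mk ℂ z' hz'))
        inferInstance (fun i => (hcoef i).mono (le_adjP _ _))
        (fun L hL hEL p hp q hq => H.conj L hL ((le_adjP _ _).trans hEL) p hp q hq) hpq hw'Over hσ
      rw [mem_Fix_adjP, mem_Fix_adjP, and_assoc] at hτ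
      exact ⟨τ, (hFixM τ).2 ⟨hτ.1, hτ.2.2, hτ.2.1⟩, h3⟩)
  obtain ⟨b, hb⟩ := hcyc₀
  obtain ⟨b', hb'⟩ := hcyc₁
  have hspP : SpP V₀ (clo M₀) (mkP y) (mkP w) := by
    rw [mkP_eq hyX.1, mkP_eq hw0]
    exact (spP_mk hV₀ hyX.1 hw0 hyi hwi).2 hyw
  refine ⟨(T.map f₀).count (mkP w), (T.map f₁).count (mkP w'), b, b', ?_, ?_⟩
  · rw [Multiset.count_pos, Multiset.mem_map]
    exact ⟨_, hyT, SpP.unique hV₀ (hf₀ _ hyT) hspP⟩
  · have h3 := link_ms hu hT H.hom hcoefM hTF hV₀ hV₁ hu₀ hu₁ hf₀ hf₁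
    rw [hb, hb'] at h3
    have h4 : actC sw (Orb (adjP K (Projectivization.mk ℂ z hz)) (mkP w)) =
        Orb (adjP K (Projectivization.mk ℂ z' hz')) (mkP w') := by
      rw [lk_orb_sw hsw hwOver (by rw [h1, ← hw'P]; exact hw'Over), h1, ← hw'P]
    rw [h4]
    have h5 : ∀ x y z t : Cy n, x + y - z - t = x + y - (z + t) := fun x y z t => by abel
    rw [h5]
    exact h3

end Pool.Agent.VSY
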