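import Pool.Agent.VSY.Defs
import Pool.Agent.VRB.SDefs

/-!
# Surfaces with a finite set of symmetries: definitions for the proof
-/

set_option autoImplicit false

open scoped LinearAlgebra.Projectivization
open MvPolynomial

namespace Pool.Agent.VSY

open Pool.Agent.VGS (Fl adj clo Coef Kills)
open Pool.Agent.VCI (PN act Gen mkP)
open Pool.Agent.VRC (cone TrLe HForm tau)
open Pool.Agent.VRB (Sp2 eqs mat)

variable {n : ℕ}

/-- The point `A p`. -/
noncomputable def tp [NeZero n] (A : Matrix (Fin n) (Fin n) ℂ) (p : PN n) : PN n :=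
  mkP (mv A p.rep)

/-- The data of the theorem over the ground field `k`. -/
structure LinG {s m L v : ℕ} (c : ℕ) (k : Fl) (h : Fin s → MvPolynomial (Fin n) ℂ)
    (g : Fin m → Fin L → MvPolynomial (Fin n) ℂ) (A : Fin v → Matrix (Fin n) (Fin n) ℂ)
    (a : Fin L → ℂ) (K : Fl) (d : Fin (s + m) → ℕ) : Prop where
  ck : Countable k
  hK : K = adj k (Set.range a)
  hom : ∀ i, (eqs h g a i).IsHomogeneous (d i)
  homg : ∀ i l, (g i l).IsHomogeneous (d (Fin.natAdd s i))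
  coefh : ∀ j, Coef k (h j)
  coefg : ∀ i l, Coef k (g i l)
  ai : AlgebraicIndependent k a
  rk : ∀ z ∈ cone (eqs h g a), (mat g z).rank = c
  trd : ∀ z ∈ cone (eqs h g a), ∀ i, z i = 1 → TrLe k (c + 2) z
  trdX : ∀ L : Fl, K ≤ L → ∀ z ∈ cone (eqs h g a), ∀ i, z i = 1 → TrLe L 2 z
  sep : ∀ p ∈ Gen K (eqs h g a), ∀ y ∈ cone (eqs h g a),
    (∃ t, ∀ i j, y i * mv (A t) p.rep j = y j * mv (A t) p.rep i) ∨ Sp2 g p.rep y
  coefA : ∀ t i j, A t i j ∈ k
  inv : Inv (eqs h g a) A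
  rc : ∀ (z z' : Fin n → ℂ) (hz : z ≠ 0) (hz' : z' ≠ 0) (i i' : Fin n), z i = 1 → z' i' = 1 →
    Projectivization.mk ℂ z hz ∈ Gen K (eqs h g a) →
    Projectivization.mk ℂ z' hz' ∈ Gen (clo (adj K (Set.range z))) (eqs h g a) →
    ∃ φ : Fin n → Polynomial ℂ,
      (∀ j l, (φ j).coeff l ∈ clo (adj k (Set.range z ∪ Set.range z'))) ∧
      (∀ j, (φ j).eval 0 = z j) ∧ (∀ j, (φ j).eval 1 = z' j) ∧
      ∀ (P : MvPolynomial (Fin n) ℂ) (e : ℕ), P.IsHomogeneous e → Coef k P → aeval z P = 0 →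
        aeval φ P = 0
  conj : ∀ L : Fl, Countable L → K ≤ L → ∀ p ∈ Gen L (eqs h g a), ∀ q ∈ Gen L (eqs h g a),
    ∃ σ ∈ VGS.Fix (clo L), act σ p = q

/-- The alternative for the combinations of the symmetries: either the combination is zero on the
zero-cycles of degree zero, or some holomorphic two-form over `clo K₀` shows that it is not zero. -/
def Dich {m v : ℕ} [NeZero n] (F : Fin m → MvPolynomial (Fin n) ℂ)
    (A : Fin v → Matrix (Fin n) (Fin n) ℂ) (K₀ : Fl) : Prop :=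
  ∀ b : Fin v → ℚ, CycRel F A b ∨ ∃ ω : HForm F (clo K₀), ∀ L : Fl, Countable L → K₀ ≤ L →
    ∀ p ∈ Gen L F, ∃ D₁ D₂ : Derivation ℤ ℂ ℂ, Kills L D₁ ∧ Kills L D₂ ∧
      ∑ t, (b t : ℂ) * tau ω D₁ D₂ (tp (A t) p) ≠ 0

end Pool.Agent.VSY
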